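import Pool.Agent.helper11.VQ.Spec3b
import Pool.Agent.helper11.RPQ.SpecI

/-!
# Project VQ (MP_07c750_an, quantum unique ergodicity, weight 10), blocks 3c and 3d: one frequency; the random series and the end, rows `vq:X`

RULES. Row `vq:XXX`: file `Pool/Agent/<seat>/VQ/XXX.lean`, `import Pool.Agent.helper11.VQ.Spec3c`, `set_option autoImplicit false`, namespace `Pool.Agent.VQ`, auxiliary lemmas prefixed `XXX_`, theorem `XXX_proof : XXX_stmt` (rows listed in `from` may be used as hypotheses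
`(h : YYY_stmt)`; rows of RPQ as `(h : RPQ.YYY_stmt)`; rows of QU, RS, EN, RPQ are proved: `import Pool.Agent.helper11.RPQ.All` gives `Pool.Agent.RPQ.A_INJ`, `Pool.Agent.RS.A_GMG`, ...). No `convert`, `congr!`, `native_decide`, no double quotes, no `private`.
-/

open scoped MatrixGroups ContDiff Topology UpperHalfPlane ComplexConjugate ENNReal
open UpperHalfPlane MeasureTheory Filter Set

namespace Pool.Agent.VQ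

open Pool.Agent.RS
open Pool.Agent.RPQ (CEig mean VV IsOp IsMul OProj wrd PJ nst mks MO Net Cl CkB PN upd Eqd)

noncomputable section

/-! ## One frequency -/

/-- the set of a test function: bad time averages, energies in the smaller window -/
def SB (D : Dyn) (F : Set ℍ) (h : ℍ → ℝ) (e t R : ℝ) : Set (SL(2, ℝ) × ℝ) := BadP D F h e t ∩ {p | |p.2| ≤ R ^ (-(1 / 4) : ℝ)}

/-- the Hilbert-Schmidt norm of a word -/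
def HSv (Γ : Subgroup SL(2, ℝ)) (ch : ℝ → ℝ) (D : Dyn) (A : Prm) (R : ℝ) (F : Set ℍ) (f : ℍ → ℝ) (S : Set (SL(2, ℝ) × ℝ)) (l : List ℕ) : ENNReal :=
  ∫⁻ x in DW F, ∫⁻ y in DW F, ‖perZ Γ (wdZ (mW R) (KB D ch A R f) S l) x y‖ₑ ^ 2 ∂mW R ∂mW R

/-- **Row QFM** (short). `(p, z) ↦ φ z * conj (Gp U ch ζ R p z)` is continuous (`cd (p.1⁻¹ • z)`, `rho U E g = √(U(g•I) + 2E)`, `ch`, `U` continuous), so the parametric integral is measurable (`StronglyMeasurable.integral_prod_right`). -/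
def QFM_stmt : Prop := ∀ (U : ℍ → ℝ) (ch : ℝ → ℝ) (ζ R : ℝ) (φ : ℍ → ℂ), Continuous U → CH ch → Continuous φ → Measurable (QF U ch ζ R φ)

/-- **Row DTV** (deterministic part; medium-long; adaptation of helper11/RPQ/DET.lean; from I2, I3, I4, I8, DTZ, OWZ, KSZ, KPZ, PSC, MTV, QFM, RPQ.KO1, RPQ.KO2). `μ0 = (mW R).restrict (DW F)` is finite (PSC). `KB D ch A R f = stZ (-thP D f R τ) (ub D ch A R)` (`τ = A.tu R`), a `KZ` (I4, KSZ, MTV). `T` from KO1, `P` (multiplication by the indicator function of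
`S' = SB D F h e τ R`) from KO2, `OProj P`. `nn F φ = 0`: then both sides are `0` (`0 ≤ h ≤ 1`). Otherwise `Φ` = the class of `(nn F φ)^(-1/2) QF φ` (QFM, I3): `‖Φ‖ ≤ 1`, `‖T Φ - Φ‖² ≤ R^(-d)`, `‖T‖ ≤ 1 + R^(-d)` (I2). Words: OWZ and the hypothesis (the Bochner integral of the bounded function is `toReal` of `HSv`). DTZ for `e`, `b`, `L`, `n`:
`∫_(S' ∩ DW F) |QF|² ≤ ((2L+1)/n + e) nn F φ`. With `ν = |QF|² dmW` on `DW F`: total mass `≤ nn`, mass of `PW F 1 R` at least `(1 - R^(-d)) nn` (I3), so the mass outside `PW F 1 R` is `≤ R^(-d) nn`. I8: `|∫ h|φ|² - ∫ avP h dν| ≤ R^(-d) nn`, and `|∫ avP h dν - mean nn| ≤ ∫ |avP h - mean| dν + |mean| R^(-d) nn ≤ e nn` (off `BadP`) `+ ((2L+1)/n + e) nn` (on `S'`)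
`+ 2 R^(-d) nn`. Choose `R0` with `4 R^(-d) ≤ e`. -/
def DTV_stmt : Prop := ∀ (Γ : Subgroup SL(2, ℝ)) (F : Set ℍ) (ch : ℝ → ℝ), QU.SurfaceGroup Γ → QU.NiceDom Γ F → CH ch → ∃ δ0 C : ℝ, 0 < δ0 ∧ 1 ≤ C ∧ ∀ (B : ℕ → ℝ) (A : Prm) (h : ℍ → ℝ) (e : ℝ) (b L n : ℕ), Adm C A → TF Γ h → 0 < e → 1 ≤ b → 1 ≤ L → 1 ≤ n →
  ∃ δ' R0 : ℝ, 0 < δ' ∧ 1 ≤ R0 ∧ ∀ (R : ℝ) (D : Dyn) (f F' : ℍ → ℝ) (μ : ℝ) (φ : ℍ → ℂ), R0 ≤ R → OKD Γ δ0 B D → EgT Γ D.U R f F' μ φ → (∀ l ∈ AdZ b L n, HSv Γ ch D A R F f (SB D F h e (A.tu R) R) l ≤ ENNReal.ofReal (δ' ^ 2)) →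
    |(∫ z in F, h z * ‖φ z‖ ^ 2) - mean F h * nn F φ| ≤ (3 * e + (2 * L + 1) / n) * nn F φ

/-- **Row VHP** (choice of the parameters; medium; from I4, I5, I6, I7, CNTV, PARV). Let `C'` be the maximum of the given `C` and of the constants of I4, I5, I6, I7 (`Adm` is monotone in `C`: all numbers are positive); `δ0` the minimum (`OKD` is monotone in `δ0`: only `Pot.near` contains it). `C1`, `v0` from I7 (for `h`, `e`). `e2 = min (1/20) (C'^(-4))`,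
`b = ⌈(6/10)/e2⌉` (so `b e2 ≤ 6/10 + 1/20`), `θ, z0` from I7, `L = ⌈(M0 + 3)/θ⌉ + 1`, `n = ⌈(2L+1)/e⌉ + 1`, `N = b n L` (`nst l = Σ b (x + 1) ≤ b n L`). `m` large: `e3 = e2/m`, `z = C' e3`, `z1 = C' z`, `z2 = C' z1`: `C' m z2 = C'^4 e2 ≤ 1` and `z2 → 0`: `z2 ≤ z0`, `C' z2 N ≤ 1/4`, `z2 ≤ 1/8`. `ζ = C' z2`, `c0 = (1 + R^(-d)) R²/(2π)`, `r = R^(-1/2 + z2)`.
`VH`: `ker, bd, rng, rch, row` I4 (`2 τ + 1 ≤ log R`), `jmp` I6 (`(m+1) r ≤ R^(-1/4)/(4N)`), `vol` I5 for all `N' ≤ N` (`R0` = the maximum), `ld` I7, `cnt`: a `Ch` is a `JP D τ (R^(-1/5)) N'` by I6 (`2 R^(-1/4) ≤ R^(-1/5)`), CNTV with `t = τ`, `r = R^(-1/5)`, `ρ1 = (log R)^(-a)` and PARV with `c = e2`, `M1 = 10 N + M0 + 10`. -/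
def VHP_stmt : Prop := ∀ (Γ : Subgroup SL(2, ℝ)) (F : Set ℍ) (κ ch : ℝ → ℝ), QU.SurfaceGroup Γ → QU.NiceDom Γ F → CH ch → ∃ δ0 : ℝ, 0 < δ0 ∧ ∀ (h : ℍ → ℝ) (e : ℝ), TF Γ h → 0 < e → ∃ v0 C1 : ℝ, 0 < v0 ∧ 1 ≤ C1 ∧
  ∀ (C T0 E0 M0 : ℝ) (B : ℕ → ℝ), 1 ≤ C → 1 ≤ T0 → 0 < E0 → 0 ≤ M0 → ∃ (θ : ℝ) (b L n N : ℕ) (A : Prm) (a R0 : ℝ), 0 < θ ∧ 1 ≤ b ∧ 1 ≤ L ∧ 1 ≤ n ∧ 1 ≤ N ∧ (2 * (L : ℝ) + 1) / n ≤ e ∧ M0 + 3 ≤ θ * L ∧ Adm C A ∧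
    (∀ l ∈ AdZ b L n, nst l ≤ N) ∧ 1 ≤ a ∧ 3 ≤ R0 ∧ ∀ (R ρ K C0 : ℝ) (J : ℕ) (p : Fin J → ℍ) (χ : Fin J → ℍ → ℝ) (D : Dyn), R0 ≤ R → 0 < ρ → ρ ≤ (Real.log R) ^ (-(2 * a + 2)) → 64 / ρ ≤ |K| → Net Γ κ ρ C0 J p χ →
      OKD Γ δ0 B D → UWL D F h (e / 2) v0 C1 T0 E0 → ∃ (ζ c0 : ℝ) (nc : ℕ), VH Γ ch D A R θ ζ c0 M0 N b nc J χ K (BadP D F h e (A.tu R))

/-- the conclusion for one potential and one test function: all eigenfunctions with frequency close to `R` -/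
def Gd (Γ : Subgroup SL(2, ℝ)) (F : Set ℍ) (h : ℍ → ℝ) (e R : ℝ) (G : ℍ → ℝ) : Prop := ∀ (F' : ℍ → ℝ) (μ : ℝ) (φ : ℍ → ℂ), QU.Inv Γ F' → (∀ z, |F' z - G z| ≤ R ^ (-3 : ℝ)) → 0 < μ → |Real.sqrt μ - R| ≤ R ^ (-(1 / 100) : ℝ) → CEig Γ F' μ φ →
  |(∫ z in F, h z * ‖φ z‖ ^ 2) - mean F h * nn F φ| ≤ e * nn F φ

/-- **Row PRV** (one frequency; medium-long; adaptation of helper98/RPQ/PRB.lean; from DTV, VHP, WXV, PIZ, PSC, MTV, KSZ, I4, RPQ.SNC, RPQ.CKB, RPQ.LIP). `e' = e/4`: `3 e' + (2L+1)/n ≤ e`. VHP for `e'`, `C` from DTV and I4, `M0 + 1`. `K = -(R s)`. For `|ξ j| ≤ 1` (almost all `ξ`: SNC) `f = W + s VV χ ξ` is in `Sm Γ (R^(1/100)) R`: `|f| ≤ R^(-1+1/200) + s C0`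
(`Net.mol`: `|VV χ ξ| ≤ C0`, mass 1), Lipschitz: CKB for `k = 1` and LIP: `≤ R^(-1+1/200) + s C C0 ρ^(-2) ≤ R^(-1+1/100)`. `KB D ch A R f = stZ (fun p => ∑ a, ξ a * thP D (χ a) K τ p) (stZ (fun p => -thP D W R τ p) (ub D ch A R))` (linearity of the integral). For `l ∈ AdZ b L n` (a finite set, independent of `R`) `G_l ξ` = the second moment of WXV, measurable
(PIZ), `∫ G_l ≤ R^(-(M0+1))` (WXV with `S' = SB D F h e' τ R`, MTV). Markov: `PJ {G_l > δ'²} ≤ δ'^(-2) R^(-(M0+1))`; sum over `l`; outside: DTV (`EgT`: `F'` of `Gd`). `R^(-M0)` bounds the sum for large `R`. -/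
def PRV_stmt : Prop := ∀ (Γ : Subgroup SL(2, ℝ)) (F : Set ℍ) (κ ch : ℝ → ℝ), QU.SurfaceGroup Γ → QU.NiceDom Γ F → MO κ → CH ch → ∃ δ0 : ℝ, 0 < δ0 ∧ ∀ (h : ℍ → ℝ) (e : ℝ), TF Γ h → 0 < e → ∃ v0 C1 : ℝ, 0 < v0 ∧ 1 ≤ C1 ∧
  ∀ (T0 E0 C0 M0 : ℝ) (B : ℕ → ℝ), 1 ≤ T0 → 0 < E0 → 0 ≤ C0 → 0 ≤ M0 → ∃ a R0 : ℝ, 1 ≤ a ∧ 3 ≤ R0 ∧ ∀ (R ρ s : ℝ) (J : ℕ) (p : Fin J → ℍ) (χ : Fin J → ℍ → ℝ) (W : ℍ → ℝ) (D : Dyn), R0 ≤ R → R ^ (-(1 / 1000) : ℝ) ≤ ρ → ρ ≤ (Real.log R) ^ (-(2 * a + 2)) →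
    64 / ρ ≤ R * s → s ≤ R ^ (-1 + 1 / 400 : ℝ) → Net Γ κ ρ C0 J p χ → OKD Γ δ0 B D → UWL D F h (e / 8) v0 C1 T0 E0 → Sm Γ (R ^ (1 / 200 : ℝ)) R W →
      PJ J {ξ | ¬ Gd Γ F h e R (fun z => Real.log (D.U z) + (W z + s * VV χ ξ z))} ≤ ENNReal.ofReal (R ^ (-M0))

/-! ## The random series -/

/-- radius of the bumps of the level `k` -/
def rk (k : ℕ) : ℝ := Real.exp (-(Real.log k) ^ 2)

/-- amplitude of the level `k` -/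
def ak (k : ℕ) : ℝ := 64 * Real.exp ((Real.log k) ^ 2) / 2 ^ k

/-- the level `k` of the series -/
def lv {J : ℕ → ℕ} (χ : (k : ℕ) → Fin (J k) → ℍ → ℝ) (ζ : ℕ × ℕ → ℝ) (k : ℕ) (z : ℍ) : ℝ := ak k * VV (χ k) (fun j => ζ (k, (j : ℕ))) z

/-- the random series -/
def rV {J : ℕ → ℕ} (χ : (k : ℕ) → Fin (J k) → ℍ → ℝ) (ζ : ℕ × ℕ → ℝ) (z : ℍ) : ℝ := ∑' k, lv χ ζ k z

/-- the levels below `K` -/
def bs {J : ℕ → ℕ} (χ : (k : ℕ) → Fin (J k) → ℍ → ℝ) (f0 : ℍ → ℝ) (K : ℕ) (v : ℕ × ℕ → ℝ) (z : ℍ) : ℝ := f0 z + ∑ k ∈ Finset.range K, lv χ v k z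

/-- the levels in `(K, 4K]` -/
def wt {J : ℕ → ℕ} (χ : (k : ℕ) → Fin (J k) → ℍ → ℝ) (K : ℕ) (v : ℕ × ℕ → ℝ) (z : ℍ) : ℝ := ∑ k ∈ Finset.Ioc K (4 * K), lv χ v k z

/-- the nets of all levels; all seminorms of order `≤ 3` of the series are at most `η` -/
structure FamV (Γ : Subgroup SL(2, ℝ)) (κ : ℝ → ℝ) (C0 η : ℝ) (k0 : ℕ) (J : ℕ → ℕ) (p : (k : ℕ) → Fin (J k) → ℍ) (χ : (k : ℕ) → Fin (J k) → ℍ → ℝ) : Prop where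
  mo : MO κ
  c0 : 1 ≤ C0
  k1 : 3 ≤ k0
  zero : ∀ k, k < k0 → J k = 0
  net : ∀ k, k0 ≤ k → Net Γ κ (rk k) C0 (J k) (p k) (χ k)
  sum : ∃ (c : ℕ → ℕ → ℝ) (C' : ℝ), (∀ n, Summable (c n)) ∧ (∀ n k, 0 ≤ c n k) ∧ (∀ n ≤ 3, ∑' k, c n k ≤ η) ∧ (∀ (n k : ℕ) (ζ : ℕ × ℕ → ℝ), (∀ q, |ζ q| ≤ 1) → CkB n (lv χ ζ k) (c n k)) ∧
    ∀ n ≤ 1, ∀ k, c n k ≤ C' * Real.exp (4 * (Real.log k) ^ 2) / 2 ^ k

/-- **Row FAMV** (short-medium; adaptation of helper33/RPQ/FAM.lean; from RPQ.BMP, RPQ.CKB). As FAM with `ρ = rk k → 0`; the seminorm of order `n` of the level `k ≥ k0` is at most `c n k = C_n C0 ak k (rk k)^(-2n) = 64 C_n C0 exp ((2n+1)(log k)²)/2^k` (`0` for `k < k0`), summable (`exp ((2n+1)(log k)²) ≤ M (3/2)^k`); for `k0` large the sums for `n ≤ 3` are `≤ η`. -/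
def FAMV_stmt : Prop := ∀ (Γ : Subgroup SL(2, ℝ)) (κ : ℝ → ℝ) (η : ℝ), QU.SurfaceGroup Γ → MO κ → 0 < η → ∃ (C0 : ℝ) (k0 : ℕ) (J : ℕ → ℕ) (p : (k : ℕ) → Fin (J k) → ℍ) (χ : (k : ℕ) → Fin (J k) → ℍ → ℝ), FamV Γ κ C0 η k0 J p χ ∧ ∀ k, k0 ≤ k → 1 ≤ J k

/-- **Row POT** (potentials `e^G`; medium; pure analysis). `Ug (e^G) g v = e^(G (g • cdi v))`. For `‖v‖ ≤ 1` choose `g_v ∈ SL(2, ℝ)` with `cdi v = g_v • I` (upper triangular). For `v'` near `v`: `G (g • cdi v') = onC (fun z => G ((g g_v) • z)) (ψ v')` with `ψ v' = g_v⁻¹ • cdi v'` as a complex number, a Moebius function of `v'` with `ψ v = i`; all derivatives of `ψ` at `v` are bounded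
(`‖v‖ ≤ 1`: `v' ↦ i (2+v')/(2-v')` followed by an affine map with bounded coefficients). So `‖D^n (Ug G g) v‖ ≤ C_n max_(i ≤ n) b_i` (`norm_iteratedFDeriv_comp_le`; for `n ≥ 1` only `i ≥ 1`, for `n = 0` it is `|G| ≤ b_0`). `e^G`: the same lemma for `exp` (`|G| ≤ η ≤ 1`), `D^n (e^G - 1)` for `n ≤ 3` is at most `C η`. Smoothness and invariance are clear. -/
def POT_stmt : Prop := ∀ δ : ℝ, 0 < δ → ∃ η : ℝ, 0 < η ∧ η ≤ 1 ∧ ∀ b : ℕ → ℝ, ∃ B : ℕ → ℝ, ∀ (Γ : Subgroup SL(2, ℝ)) (G : ℍ → ℝ), QU.CD ∞ G → QU.Inv Γ G → (∀ n ≤ 3, CkB n G η) → (∀ n, CkB n G (b n)) → Pot Γ δ B (fun z => Real.exp (G z))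

/-- **Row PCL** (short-medium; pure analysis; compare POT). `Ug (e^G) g w - Ug (e^G') g w = e^(G') (e^(G - G') - 1)` at `g • cdi w`: value `≤ C η`, derivative at `0`: `e^G' (e^(G-G') - 1) G'_w + e^G (G - G')_w`, and the derivative of `w ↦ G (g • cdi w)` at `0` is the one of `onC (fun z => G (g • z))` at `i` composed with the multiplication by `i`. -/
def PCL_stmt : Prop := ∃ C : ℝ, 1 ≤ C ∧ ∀ (G G' : ℍ → ℝ) (η : ℝ), QU.CD ∞ G → QU.CD ∞ G' → 0 ≤ η → η ≤ 1 → (∀ n ≤ 1, CkB n G 1) → (∀ n ≤ 1, CkB n (fun z => G z - G' z) η) →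
  ∀ (g : SL(2, ℝ)) (n : ℕ), n ≤ 1 → ‖iteratedFDeriv ℝ n (fun w => Ug (fun z => Real.exp (G z)) g w - Ug (fun z => Real.exp (G' z)) g w) 0‖ ≤ C * η

/-- **Row SEV** (the series; medium; from RPQ.SER, RPQ.LIP). (1) `lv` is linear in the coefficients; `CD ∞`, invariant (`Net.smooth`, `Net.inv`; `0` for `k < k0`). (2) the series converges (SER), and the derivatives can be computed term by term (`iteratedFDeriv_tsum` in the chart; compare helper31/RPQ/SER.lean), so `CkB n` of the sum of the levels in a set is at most the sum of the `c n k` over this set. `f0` has finite seminorms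
(compactness: `QU.A_BDD` or the continuity of `g ↦ iteratedFDeriv ..` and invariance). -/
def SEV_stmt : Prop := ∀ (Γ : Subgroup SL(2, ℝ)) (κ : ℝ → ℝ) (C0 η : ℝ) (k0 : ℕ) (J : ℕ → ℕ) (p : (k : ℕ) → Fin (J k) → ℍ) (χ : (k : ℕ) → Fin (J k) → ℍ → ℝ) (f0 : ℍ → ℝ), QU.SurfaceGroup Γ → FamV Γ κ C0 η k0 J p χ → QU.CD ∞ f0 → QU.Inv Γ f0 → (∀ n ≤ 3, CkB n f0 η) →
  (∃ b : ℕ → ℝ, ∀ ζ : ℕ × ℕ → ℝ, (∀ q, |ζ q| ≤ 1) → (QU.CD ∞ (fun z => f0 z + rV χ ζ z) ∧ QU.Inv Γ (fun z => f0 z + rV χ ζ z) ∧ (∀ n ≤ 3, CkB n (fun z => f0 z + rV χ ζ z) (2 * η)) ∧ ∀ n, CkB n (fun z => f0 z + rV χ ζ z) (b n)) ∧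
    ∀ K : ℕ, QU.CD ∞ (bs χ f0 K ζ) ∧ QU.Inv Γ (bs χ f0 K ζ) ∧ (∀ n ≤ 3, CkB n (bs χ f0 K ζ) (2 * η)) ∧ ∀ n, CkB n (bs χ f0 K ζ) (b n)) ∧
  (∀ s : ℝ, 0 < s → ∃ K0 : ℕ, ∀ (K : ℕ) (ζ v : ℕ × ℕ → ℝ) (m : ℝ), K0 ≤ K → (∀ q, |ζ q| ≤ 1) → 0 < m → m ≤ 1 / 2 ^ K → (∀ q : ℕ × ℕ, q.1 ≤ 4 * K → q.1 ≠ K → q.2 < J q.1 → |v q - ζ q| ≤ m) → ∀ n ≤ 1, CkB n (fun z => (f0 z + rV χ ζ z) - bs χ f0 K v z) s)

/-- **Row TLV** (tails; medium; from SEV (parts), RPQ.LIP, RPQ.SER). `R ∈ [2^K, 2^(K+1)]`. (1) `|wt|` and the Lipschitz constant of `wt` are at most `Σ_(k > K) c n k ≤ C' Σ_(k > K) exp (4 (log k)²)/2^k ≤ C'' exp (4 (log (2K))²)/2^K ≤ R^(-1+1/200)` for large `R` (LIP). (2) the difference is `Σ_(k > 4K) lv χ ζ k + Σ_(k ≤ 4K, k ≠ K) lv χ (ζ - v) k`; the first is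
`≤ Σ_(k > 4K) c 0 k ≤ C'' exp (4 (log (5K))²) 2^(-4K) ≤ R^(-3)/2`, the second `≤ R^(-10) Σ_k c 0 k` (`lv` is linear in the coefficients). -/
def TLV_stmt : Prop := ∀ (Γ : Subgroup SL(2, ℝ)) (κ : ℝ → ℝ) (C0 η : ℝ) (k0 : ℕ) (J : ℕ → ℕ) (p : (k : ℕ) → Fin (J k) → ℍ) (χ : (k : ℕ) → Fin (J k) → ℍ → ℝ) (f0 : ℍ → ℝ), QU.SurfaceGroup Γ → FamV Γ κ C0 η k0 J p χ → ∃ R0 : ℝ, 3 ≤ R0 ∧
  ∀ (R : ℝ) (K : ℕ), R0 ≤ R → 2 ^ K ≤ R → R ≤ 2 ^ (K + 1) → (∀ v : ℕ × ℕ → ℝ, (∀ q, |v q| ≤ 1) → Sm Γ (R ^ (1 / 200 : ℝ)) R (wt χ K v)) ∧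
    ∀ ζ v : ℕ × ℕ → ℝ, (∀ q, |ζ q| ≤ 1) → (∀ q, |v q| ≤ 1) → (∀ q : ℕ × ℕ, q.1 ≤ 4 * K → q.1 ≠ K → q.2 < J q.1 → |v q - ζ q| ≤ R ^ (-10 : ℝ)) →
      ∀ z, |(f0 z + rV χ ζ z) - (bs χ f0 K v z + (wt χ K v z + ak K * VV (χ K) (fun j => ζ (K, (j : ℕ))) z))| ≤ R ^ (-3 : ℝ)

/-- **Row GIV** (numbers; short-medium; pure). `K = ⌊log R / log 2⌋`, so `2^K ≤ R < 2^(K+1)`. `rk K = exp (-(log K)²)` with `log K ~ log log R`: `R^(-1/1000) ≤ rk K ≤ (log R)^(-(2a+2))` for large `R`. `64/rk K = 64 exp ((log K)²) ≤ R ak K`. `ak K = 64 exp ((log K)²)/2^K ≤ 128 exp ((log K)²)/R ≤ R^(-1+1/400)`. -/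
def GIV_stmt : Prop := ∀ (a : ℝ) (k0 : ℕ), 1 ≤ a → ∃ R0 : ℝ, 3 ≤ R0 ∧ ∀ R : ℝ, R0 ≤ R → ∃ K : ℕ, k0 ≤ K ∧ 1 ≤ K ∧ 2 ^ K ≤ R ∧ R ≤ 2 ^ (K + 1) ∧ R ^ (-(1 / 1000) : ℝ) ≤ rk K ∧ rk K ≤ (Real.log R) ^ (-(2 * a + 2)) ∧ 64 / rk K ≤ R * ak K ∧ ak K ≤ R ^ (-1 + 1 / 400 : ℝ)

/-- **Row RND** (rounding; short-medium; pure). `T` = the functions from the finite set `{q | q.1 ≤ 4K, q.1 ≠ K, q.2 < J q.1}` to `ℤ`, `r ζ = ⌊M clp (ζ q)⌋`, `v b q = b q/M` truncated to `[-1, 1]` (`0` for the other `q`); `clp x = max (-1) (min 1 x)`. `⌊M x⌋/M ∈ [-1, 1]` for `|x| ≤ 1` and `|⌊M x⌋/M - x| ≤ 1/M`. -/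
def RND_stmt : Prop := ∀ (J : ℕ → ℕ) (K M : ℕ), 1 ≤ M → ∃ (T : Type) (_ : Countable T) (r : (ℕ × ℕ → ℝ) → T) (v : T → ℕ × ℕ → ℝ), (∀ b, MeasurableSet (r ⁻¹' {b})) ∧ (∀ b q, |v b q| ≤ 1) ∧ (∀ (ζ : ℕ × ℕ → ℝ) (ξ : Fin (J K) → ℝ), r (upd K (J K) (ζ, ξ)) = r ζ) ∧
  ∀ ζ : ℕ × ℕ → ℝ, (∀ q, |ζ q| ≤ 1) → ∀ q : ℕ × ℕ, q.1 ≤ 4 * K → q.1 ≠ K → q.2 < J q.1 → |v (r ζ) q - ζ q| ≤ 1 / M

/-- **Row RSB** (short-medium; from RPQ.RSM). `E' b = toMeasurable (PJ J) (E b)`. The set is in the union over `b` of `X_b = r⁻¹{b} ∩ {ζ | (ζ (k, ·)) ∈ E' b}`, measurable; `upd k J` is measure preserving and `upd k J (ζ, ξ) ∈ X_b` iff `r ζ = b` and `ξ ∈ E' b`: `PN X_b = PN (r⁻¹{b}) PJ J (E' b) ≤ c PN (r⁻¹{b})`. Sum over the countable `T` (disjoint measurable sets). -/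
def RSB_stmt : Prop := ∀ (k J : ℕ) (T : Type) [Countable T] (r : (ℕ × ℕ → ℝ) → T) (c : ENNReal) (E : T → Set (Fin J → ℝ)), (∀ b, MeasurableSet (r ⁻¹' {b})) → (∀ (ζ : ℕ × ℕ → ℝ) (ξ : Fin J → ℝ), r (upd k J (ζ, ξ)) = r ζ) → (∀ b, PJ J (E b) ≤ c) →
  PN {ζ | (fun j : Fin J => ζ (k, (j : ℕ))) ∈ E (r ζ)} ≤ c

/-- **Row BC1** (one frequency; medium-long; from PRV, IDY, POT, SEV, TLV, GIV, RND, RSB). `ch` any cut-off (`CH`; exists: `Real.smoothTransition`). `δ` = the minimum of `δ'` and of the constants of PRV and IDY; `η = ` half of the `η` of POT for `δ`. `B` from POT and SEV. Given `T0, E0`: `a, R0` from PRV with `M0 = 4`; `i` large, `R = √i`, `K` from GIV, `M = i^5`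
(`1/M = R^(-10)`), `T, r, v'` from RND, `v ζ = v' (r ζ)`. For `b : T` let `D_b` be the dynamics of `U_b = exp (bs χ f0 K (v' b))` (IDY) and `E b = {ξ | ¬ Gd Γ F h e R (log U_b + (wt χ K (v' b) + ak K * VV (χ K) ξ))}` if `UWL D_b F h (e/8) v0 C1 T0 E0`, `∅` otherwise. PRV (`s = ak K`, `ρ = rk K`): `PJ (E b) ≤ R^(-4) = i^(-2)`. RSB. The set of the statement is contained in
`{ζ | ζ (K, ·) ∈ E (r ζ)}`: `D_b` satisfies UWL by the condition, and `f0 + rV χ ζ` is within `R^(-3)` of the potential (TLV), so `Gd` would give the estimate. -/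
def BC1_stmt : Prop := ∀ (Γ : Subgroup SL(2, ℝ)) (F : Set ℍ) (κ : ℝ → ℝ) (δ' : ℝ), QU.SurfaceGroup Γ → QU.NiceDom Γ F → MO κ → 0 < δ' → ∃ δ η : ℝ, 0 < δ ∧ δ ≤ δ' ∧ 0 < η ∧ ∀ (h : ℍ → ℝ) (e : ℝ), TF Γ h → 0 < e → ∃ v0 C1 : ℝ, 0 < v0 ∧ 1 ≤ C1 ∧
  ∀ (C0 : ℝ) (k0 : ℕ) (J : ℕ → ℕ) (p : (k : ℕ) → Fin (J k) → ℍ) (χ : (k : ℕ) → Fin (J k) → ℍ → ℝ) (f0 : ℍ → ℝ), FamV Γ κ C0 η k0 J p χ → QU.CD ∞ f0 → QU.Inv Γ f0 → (∀ n ≤ 3, CkB n f0 η) → ∃ B : ℕ → ℝ,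
    (∀ ζ : ℕ × ℕ → ℝ, (∀ q, |ζ q| ≤ 1) → Pot Γ δ B (fun z => Real.exp (f0 z + rV χ ζ z)) ∧ ∀ K : ℕ, Pot Γ δ B (fun z => Real.exp (bs χ f0 K ζ z))) ∧
    ∀ T0 E0 : ℝ, 1 ≤ T0 → 0 < E0 → ∃ i0 : ℕ, ∀ i : ℕ, i0 ≤ i → ∃ (K : ℕ) (v : (ℕ × ℕ → ℝ) → ℕ × ℕ → ℝ), 2 ^ K ≤ Real.sqrt i ∧ Real.sqrt i ≤ 2 ^ (K + 1) ∧ (∀ ζ q, |v ζ q| ≤ 1) ∧
      (∀ ζ : ℕ × ℕ → ℝ, (∀ q, |ζ q| ≤ 1) → ∀ q : ℕ × ℕ, q.1 ≤ 4 * K → q.1 ≠ K → q.2 < J q.1 → |v ζ q - ζ q| ≤ Real.sqrt i ^ (-10 : ℝ)) ∧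
      PN {ζ | (∀ q, |ζ q| ≤ 1) ∧ (∀ D : Dyn, OKD Γ δ B D → D.U = (fun z => Real.exp (bs χ f0 K (v ζ) z)) → UWL D F h (e / 8) v0 C1 T0 E0) ∧
        ∃ (μ : ℝ) (φ : ℍ → ℂ), 0 < μ ∧ |Real.sqrt μ - Real.sqrt i| ≤ Real.sqrt i ^ (-(1 / 100) : ℝ) ∧ CEig Γ (fun z => f0 z + rV χ ζ z) μ φ ∧ e * nn F φ < |(∫ z in F, h z * ‖φ z‖ ^ 2) - mean F h * nn F φ|} ≤ ENNReal.ofReal ((i : ℝ) ^ (-2 : ℝ))

/-- **Row BC2** (Borel-Cantelli; medium; from BC1, IDY, IUW, SEV, PCL, RPQ.RSM). `δ'` = the minimum of the constants of IDY and IUW. For `T0, q ∈ ℕ`, `T0, q ≥ 1`, `E0 = 1/q`: the bad sets of BC1 for `i ≥ i0` have measure `≤ i^(-2)`: almost every `ζ` is in only finitely many of them, for all `(T0, q)` (countable). Let `ζ` be such, `|ζ q| ≤ 1` (RSM). `D` = the dynamics of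
`exp (f0 + rV χ ζ)` (IDY), IUW for `C1`, `e/8`, `v0`: `T0, E0, s`; `q ≥ 1/E0`. For large `i` and every `D'` with `D'.U = exp (bs χ f0 K (v ζ))`, `OKD Γ δ B D'`: closeness in `C¹` by SEV (last part, `m = (√i)^(-10) ≤ 2^(-K)`; `K → ∞`) and PCL (`η` = the minimum of the `η` of BC1 and `1/2`; `FamV` is monotone in `η`; so `CkB n G 1` for `n ≤ 1`), so `UWL D' .. T0 E0`, hence also for `1/q ≤ E0` (monotone). As `ζ` is not in the bad set: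
the conclusion for all `μ` with `|√μ - √i| ≤ (√i)^(-1/100)`; for large `μ` take `i = ⌊μ⌋`. -/
def BC2_stmt : Prop := ∀ (Γ : Subgroup SL(2, ℝ)) (F : Set ℍ) (κ : ℝ → ℝ), QU.SurfaceGroup Γ → QU.NiceDom Γ F → MO κ → ∃ η : ℝ, 0 < η ∧ η ≤ 1 / 2 ∧ ∀ (C0 : ℝ) (k0 : ℕ) (J : ℕ → ℕ) (p : (k : ℕ) → Fin (J k) → ℍ) (χ : (k : ℕ) → Fin (J k) → ℍ → ℝ) (f0 : ℍ → ℝ),
  FamV Γ κ C0 η k0 J p χ → QU.CD ∞ f0 → QU.Inv Γ f0 → (∀ n ≤ 3, CkB n f0 η) → ∀ (h : ℍ → ℝ) (e : ℝ), TF Γ h → 0 < e →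
    ∀ᵐ ζ ∂PN, ∃ r0 : ℝ, 0 < r0 ∧ ∀ (μ : ℝ) (φ : ℍ → ℂ), r0 ≤ μ → CEig Γ (fun z => f0 z + rV χ ζ z) μ φ → |(∫ z in F, h z * ‖φ z‖ ^ 2) - mean F h * nn F φ| ≤ e * nn F φ

/-! ## The end -/

/-- **Row LNV** (short; adaptation of the proof of RPQ.LNT). The functions of the finite set are of the form `(h - c)/D` with `h` 1-Lipschitz, so Lipschitz. -/
def LNV_stmt : Prop := ∀ (Γ : Subgroup SL(2, ℝ)), QU.SurfaceGroup Γ → ∃ D : ℝ, 1 ≤ D ∧ ∀ e : ℝ, 0 < e → ∃ S : Finset (ℍ → ℝ), (∀ h ∈ S, TF Γ h) ∧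
  ∀ h : ℍ → ℝ, QU.Inv Γ h → (∀ z w, |h z - h w| ≤ dist z w) → ∃ (c : ℝ), ∃ h' ∈ S, ∀ z, |(h z - c) / D - h' z| ≤ e

/-- **Row MFV** (change of the measure; short-medium; from QU: DOB, BDD, DOM). The integrals over `F'` and `F` agree for invariant functions. `e^f` and `(h - c) e^f` are Lipschitz with constants depending on `M` and on the diameter of `Γ\ℍ` (`h` 1-Lipschitz, `c` a value of `h`). By the hypothesis for `k/Lip k`: `|∫_F k|φ|² - mean F k nn F φ| ≤ 3 D e Lip(k) nn F φ` for every invariant Lipschitz `k`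
(`k = c + D h'` up to `D e`). For `k = (h - c) e^f` and `k = e^f`: `∫ (h - c) e^f |φ|² - (∫ (h - c) e^f/∫ e^f) ∫ |φ|² e^f` is at most `C e nn F φ`, and `nn F φ ≤ e^M ∫ |φ|² e^f`. -/
def MFV_stmt : Prop := ∀ (Γ : Subgroup SL(2, ℝ)) (M D : ℝ), QU.SurfaceGroup Γ → 0 ≤ M → 1 ≤ D → ∃ C : ℝ, 1 ≤ C ∧ ∀ (F F' : Set ℍ) (f : ℍ → ℝ) (e : ℝ) (φ : ℍ → ℂ), QU.NiceDom Γ F → QU.NiceDom Γ F' → QU.Inv Γ f → (∀ z, |f z| ≤ M) → (∀ z w, |f z - f w| ≤ M * dist z w) → InvC Γ φ → 0 ≤ e →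
  (∀ h : ℍ → ℝ, QU.Inv Γ h → (∀ z w, |h z - h w| ≤ dist z w) → ∃ (c : ℝ) (h' : ℍ → ℝ), TF Γ h' ∧ (∀ z, |(h z - c) / D - h' z| ≤ e) ∧ |(∫ z in F, h' z * ‖φ z‖ ^ 2) - mean F h' * nn F φ| ≤ e * nn F φ) →
    Eqd Γ F' f (C * e) φ

/-- **Row NCV** (the Gauss curvature of `e^G g` is `e^(-G) (-1 + lap G/2)`, so it is negative; short-medium; compare RPQ.LIP). `z = g • I`; `lap G (g • I) = lap (fun w => G (g • w)) I` (invariance of the Laplace operator; QU or helper62/RS) and at `I` it is `-(∂xx + ∂yy)` of `onC`, of absolute value `≤ 2 η`. -/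
def NCV_stmt : Prop := ∀ (G : ℍ → ℝ) (η : ℝ), QU.CD ∞ G → CkB 2 G η → ∀ z, |QU.lap G z| ≤ 2 * η

/-- **Row FNV** (the final statement; short-medium; from BC2, FAMV, SEV, LNV, MFV, RPQ.LIP, RPQ.RSM, RPQ.MOM, QU.DOM). `κ` from MOM, a fixed nice `F` (DOM), `η` = the minimum of the one of BC2 and `1/8`, FAMV for `η/2` (so that SEV with `f0 = 0`, `η/2` gives the seminorms `≤ η` of the series; `FamV` is monotone in `η`). LNV for `e = 1/(m+1)`: countably many test functions; BC2 for each of them with `e = 1/(m+1)`; almost every `ζ` is good for all of them. Given `ε`: `m` with `C/(m+1) ≤ ε`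
(`C` from MFV, `M = 2 η`), `r0` = the maximum over the finite set. `u k j = ak k * χ k j` for `j < J k`, `0` otherwise. -/
def FNV_stmt : Prop := ∀ Γ : Subgroup SL(2, ℝ), QU.SurfaceGroup Γ → ∃ (η : ℝ) (k0 : ℕ) (J : ℕ → ℕ) (u : ℕ → ℕ → ℍ → ℝ), 0 < η ∧ η ≤ 1 / 8 ∧ (∀ k, k0 ≤ k → 1 ≤ J k) ∧
  (∀ k j, QU.CD ∞ (u k j) ∧ QU.Inv Γ (u k j) ∧ ∀ z, 0 ≤ u k j z) ∧
  (∀ n : ℕ, ∃ c : ℕ → ℝ, Summable c ∧ ∀ (k : ℕ) (ξ : ℕ → ℝ), (∀ j, |ξ j| ≤ 1) → CkB n (fun z => ∑ j ∈ Finset.range (J k), ξ j * u k j z) (c k)) ∧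
  (∀ ζ : ℕ × ℕ → ℝ, (∀ q, |ζ q| ≤ 1) → QU.CD ∞ (fun z => ∑' k, ∑ j ∈ Finset.range (J k), ζ (k, j) * u k j z) ∧ ∀ n ≤ 3, CkB n (fun z => ∑' k, ∑ j ∈ Finset.range (J k), ζ (k, j) * u k j z) η) ∧
  ∀ f0 : ℍ → ℝ, QU.CD ∞ f0 → QU.Inv Γ f0 → (∀ n ≤ 3, CkB n f0 η) → ∀ᵐ ζ ∂PN, ∀ ε : ℝ, 0 < ε → ∃ r0 : ℝ, 0 < r0 ∧ ∀ (F : Set ℍ) (μ : ℝ) (φ : ℍ → ℂ), QU.NiceDom Γ F → r0 ≤ μ →
    CEig Γ (fun z => f0 z + ∑' k, ∑ j ∈ Finset.range (J k), ζ (k, j) * u k j z) μ φ → Eqd Γ F (fun z => f0 z + ∑' k, ∑ j ∈ Finset.range (J k), ζ (k, j) * u k j z) ε φ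

end

end Pool.Agent.VQ
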