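import Pool.Agent.helper98.RPQ.SpecR

/-!
# Project VQ (MP_07c750_an, quantum unique ergodicity, weight 10), block 3a: words of step operators on an abstract phase space, rows `vq:X`

ABSTRACT SETTING: a measurable space `Y` with an action of a countable group `Γ`, an invariant measure `m`, a fundamental domain `D` of finite measure and an invariant pseudo-distance `d` with finite counts (in the application `Y = SL(2, ℝ) × ℝ`, frames and energies).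
GOAL (row EHZ): second moment of the Hilbert-Schmidt norm of the words `P T^a P T^b P ... P`, `T` = the operator with the kernel `Σ_γ exp (i Σ ξ_a θ_a (x)) u (x, γ y)`, `P` = multiplication with the indicator function of `A`.

MOST ROWS ARE COPIES of a row of RPQ with `u ((g * aM t)⁻¹ * h)` replaced by `u x y` and `th V κ t g` by `θ x`: the geometric facts used there are now the fields of `PS`.

RULES. Row `vq:XXX`: file `Pool/Agent/<seat>/VQ/XXX.lean`, `import Pool.Agent.helper11.VQ.Spec3a`, `set_option autoImplicit false`, namespace `Pool.Agent.VQ`, auxiliary lemmas prefixed `XXX_`, theorem `XXX_proof : XXX_stmt` (rows listed in `from` may be used as hypotheses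
`(h : YYY_stmt)`; rows of RPQ as `(h : RPQ.YYY_stmt)`). No `convert`, `congr!`, `native_decide`, no double quotes, no `private`.
-/

open scoped ENNReal ComplexConjugate
open MeasureTheory Filter Set

namespace Pool.Agent.VQ

open Pool.Agent.RPQ (IsOp IsMul OProj wrd PJ und1 nst mks)

noncomputable section

/-- abstract phase spaces -/
structure PS (Γ : Type) [Group Γ] (Y : Type) [MeasurableSpace Y] [MulAction Γ Y] (m : Measure Y) (D : Set Y) (d : Y → Y → ℝ) : Prop where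
  cnt : Countable Γ
  sf : SigmaFinite m
  act : ∀ γ : Γ, MeasurePreserving (fun y : Y => γ • y) m m
  uniq : ∀ y : Y, ∃! γ : Γ, γ • y ∈ D
  meas : MeasurableSet D
  fin : m D < ⊤
  dm : Measurable (Function.uncurry d)
  d0 : ∀ x y, 0 ≤ d x y
  ds : ∀ x y, d x y = d y x
  dt : ∀ x y z, d x z ≤ d x y + d y z
  di : ∀ (γ : Γ) (x y : Y), d (γ • x) (γ • y) = d x y
  vol : ∀ T : ℝ, ∃ B : ℝ, ∀ x, m {y | d x y ≤ T} ≤ ENNReal.ofReal B
  fc : ∀ T : ℝ, ∃ n : ℕ, ∀ x y, {γ : Γ | d x (γ • y) ≤ T}.Finite ∧ {γ : Γ | d x (γ • y) ≤ T}.ncard ≤ n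

section defs

variable (Γ : Type) [Group Γ] {Y : Type} [MeasurableSpace Y] [MulAction Γ Y] (m : Measure Y)

/-- invariant sets -/
def InvS (A : Set Y) : Prop := ∀ (γ : Γ) (y : Y), γ • y ∈ A ↔ y ∈ A

/-- bounded measurable invariant kernels of finite range -/
structure KZ (d : Y → Y → ℝ) (K : Y → Y → ℂ) : Prop where
  meas : Measurable (Function.uncurry K)
  bdd : ∃ B : ℝ, ∀ x y, ‖K x y‖ ≤ B
  inv : ∀ (γ : Γ) (x y : Y), K (γ • x) (γ • y) = K x y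
  range : ∃ T : ℝ, ∀ x y, K x y ≠ 0 → d x y ≤ T

/-- the kernel on the quotient -/
def perZ (K : Y → Y → ℂ) (x y : Y) : ℂ := ∑ᶠ γ : Γ, K x (γ • y)

variable {Γ}

/-- composition -/
def cmZ (K L : Y → Y → ℂ) (x y : Y) : ℂ := ∫ p, K x p * L p y ∂m

/-- the step kernel with the phase `θ` -/
def stZ (θ : Y → ℝ) (u : Y → Y → ℂ) (x y : Y) : ℂ := Complex.exp (((θ x : ℝ) : ℂ) * Complex.I) * u x y

/-- `n + 1` steps -/
def itZ (k : Y → Y → ℂ) : ℕ → Y → Y → ℂ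
  | 0 => k
  | n + 1 => cmZ m k (itZ k n)

/-- the kernel of the word `P T^(n_1 + 1) P T^(n_2 + 1) P ... P T^(n_L + 1) P`, `P` = multiplication by the indicator function of `A`, `T` with the kernel `k` -/
def wdZ (k : Y → Y → ℂ) (A : Set Y) : List ℕ → Y → Y → ℂ
  | [] => fun _ _ => 0
  | [n] => fun x y => A.indicator (fun _ => (1 : ℂ)) x * itZ m k n x y * A.indicator (fun _ => (1 : ℂ)) y
  | n :: n' :: l => cmZ m (fun x y => A.indicator (fun _ => (1 : ℂ)) x * itZ m k n x y) (wdZ k A (n' :: l))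

/-- the vertices `x, v 0, .., v (n - 1), y, y, ..` -/
def vz {n : ℕ} (x y : Y) (v : Fin n → Y) : ℕ → Y
  | 0 => x
  | j + 1 => if hj : j < n then v ⟨j, hj⟩ else y

/-- product measures for the inner vertices -/
def mZ (n : ℕ) : Measure (Fin n → Y) := Measure.pi fun _ : Fin n => m

/-- compositions along `n + 1` steps with values in `[0, ∞]` -/
def pE : ℕ → (ℕ → Y → Y → ENNReal) → Y → Y → ENNReal
  | 0, s => s 0
  | n + 1, s => fun x y => ∫⁻ p, s 0 x p * pE n (fun j => s (j + 1)) p y ∂m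

/-- the same for complex kernels -/
def pC : ℕ → (ℕ → Y → Y → ℂ) → Y → Y → ℂ
  | 0, s => s 0
  | n + 1, s => cmZ m (s 0) (pC n (fun j => s (j + 1)))

/-- `1` if the path is in `A` at all times in `mks l`, otherwise `0` -/
def inZ (A : Set Y) (l : List ℕ) (w : ℕ → Y) : ENNReal := {w : ℕ → Y | ∀ j ∈ mks l, w j ∈ A}.indicator (fun _ => 1) w

/-- the weight of a path -/
def wgZ (u : Y → Y → ℂ) (A : Set Y) (l : List ℕ) (w : ℕ → Y) : ℂ :=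
  {w : ℕ → Y | ∀ j ∈ mks l, w j ∈ A}.indicator (fun w => ∏ j ∈ Finset.range (nst l), u (w j) (w (j + 1))) w

/-- the majorant of the weight of a path -/
def wM (M : Y → Y → ENNReal) (l : List ℕ) (w : ℕ → Y) : ENNReal := ∏ j ∈ Finset.range (nst l), M (w j) (w (j + 1))

/-- the step kernels of a word -/
def sZ {E : Type} [MulZeroOneClass E] (A : Set Y) (l : List ℕ) (s : Y → Y → E) (j : ℕ) (x y : Y) : E :=
  (if j ∈ mks l then A.indicator (fun _ => 1) x else 1) * s x y * (if j + 1 = nst l then A.indicator (fun _ => 1) y else 1)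

/-- the phases of a path: `Σ_(j < nst l) θ_a (w j)` -/
def phZ {J : ℕ} (θ : Fin J → Y → ℝ) (l : List ℕ) (w : ℕ → Y) (a : Fin J) : ℝ := ∑ j ∈ Finset.range (nst l), θ a (w j)

end defs

/-! ## Kernels on the quotient -/

/-- **Row KPZ** (= RPQ row KPG in the abstract setting: copy helper65/RPQ/KPG.lean; medium). `perZ` is a finite sum with a uniformly bounded number of terms (`fc`), measurable (sum over the countable group); `∫_Y = Σ_γ ∫_D` (`D` is a strict fundamental domain: `uniq`; `act`). Composition: range `T + T'` (`dt`), bounded (`vol`). -/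
def KPZ_stmt : Prop := ∀ (Γ : Type) [Group Γ] (Y : Type) [MeasurableSpace Y] [MulAction Γ Y] (m : Measure Y) (D : Set Y) (d : Y → Y → ℝ), PS Γ Y m D d →
  (∀ K, KZ Γ d K → Measurable (Function.uncurry (perZ Γ K)) ∧ (∃ B : ℝ, ∀ x y, ‖perZ Γ K x y‖ ≤ B) ∧
    (∀ (γ : Γ) (x y : Y), perZ Γ K (γ • x) y = perZ Γ K x y ∧ perZ Γ K x (γ • y) = perZ Γ K x y) ∧
    ∀ v : Y → ℂ, Measurable v → (∃ B : ℝ, ∀ y, ‖v y‖ ≤ B) → (∀ (γ : Γ) y, v (γ • y) = v y) →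
      ∀ x, ∫ y in D, perZ Γ K x y * v y ∂m = ∫ y, K x y * v y ∂m) ∧
  ∀ K L, KZ Γ d K → KZ Γ d L → KZ Γ d (cmZ m K L) ∧ ∀ x y, perZ Γ (cmZ m K L) x y = ∫ p in D, perZ Γ K x p * perZ Γ L p y ∂m

/-- **Row KSZ** (short; = RPQ row KPS; from KPZ). Induction on `n` and on the list. First part: `stZ`. -/
def KSZ_stmt : Prop := ∀ (Γ : Type) [Group Γ] (Y : Type) [MeasurableSpace Y] [MulAction Γ Y] (m : Measure Y) (D : Set Y) (d : Y → Y → ℝ), PS Γ Y m D d →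
  (∀ (θ : Y → ℝ) (u : Y → Y → ℂ), Measurable θ → (∀ (γ : Γ) y, θ (γ • y) = θ y) → KZ Γ d u → KZ Γ d (stZ θ u)) ∧
  ∀ (k : Y → Y → ℂ) (A : Set Y), KZ Γ d k → MeasurableSet A → InvS Γ A → (∀ n, KZ Γ d (itZ m k n)) ∧ ∀ l : List ℕ, KZ Γ d (wdZ m k A l)

/-- **Row OWZ** (medium; = RPQ row OPW: copy helper65/RPQ/OPW.lean; from RPQ.KO1, RPQ.KO2, KPZ, KSZ). -/
def OWZ_stmt : Prop := ∀ (Γ : Type) [Group Γ] (Y : Type) [MeasurableSpace Y] [MulAction Γ Y] (m : Measure Y) (D : Set Y) (d : Y → Y → ℝ), PS Γ Y m D d → ∀ (k : Y → Y → ℂ) (A : Set Y),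
  KZ Γ d k → MeasurableSet A → InvS Γ A → ∀ (T P : Lp ℂ 2 (m.restrict D) →L[ℂ] Lp ℂ 2 (m.restrict D)), IsOp (m.restrict D) (perZ Γ k) T →
    IsMul (m.restrict D) (A.indicator (fun _ => (1 : ℂ))) P → ∀ l : List ℕ, l ≠ [] →
      ‖wrd T P l‖ ^ 2 ≤ ∫ x in D, ∫ y in D, ‖perZ Γ (wdZ m k A l) x y‖ ^ 2 ∂m ∂m

/-! ## Paths -/

/-- **Row VXZ** (short; = RPQ row VXI without `pth`, `ic`: helper65/RPQ/VXI.lean; pure). -/
def VXZ_stmt : Prop := ∀ (Y : Type) [MeasurableSpace Y] (m : Measure Y) [SigmaFinite m],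
  (∀ (n : ℕ) (x y : Y) (v : Fin (n + 1) → Y) (j : ℕ), vz x y v (j + 1) = vz (v 0) y (fun i : Fin n => v i.succ) j) ∧
  (∀ (n : ℕ) (x y : Y) (v : Fin n → Y), vz x y v 0 = x ∧ vz x y v (n + 1) = y) ∧
  (∀ (n j : ℕ), Measurable fun p : (Y × Y) × (Fin n → Y) => vz p.1.1 p.1.2 p.2 j) ∧
  (∀ n, SigmaFinite (mZ m n)) ∧
  (∀ (n : ℕ) (f : Y × (Fin n → Y) → ENNReal), Measurable f →
    ∫⁻ v : Fin (n + 1) → Y, f (v 0, fun i => v i.succ) ∂mZ m (n + 1) = ∫⁻ p, ∫⁻ v, f (p, v) ∂mZ m n ∂m) ∧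
  ∀ (n : ℕ) (f : Y × (Fin n → Y) → ℂ), Integrable f (m.prod (mZ m n)) →
    ∫ v : Fin (n + 1) → Y, f (v 0, fun i => v i.succ) ∂mZ m (n + 1) = ∫ p, ∫ v, f (p, v) ∂mZ m n ∂m

/-- **Row UNZ** (short-medium; = RPQ row UNE: helper2/RPQ/UNE.lean; from VXZ). -/
def UNZ_stmt : Prop := ∀ (Y : Type) [MeasurableSpace Y] (m : Measure Y) [SigmaFinite m] (s : ℕ → Y → Y → ENNReal), (∀ j, Measurable (Function.uncurry (s j))) → ∀ n : ℕ, Measurable (Function.uncurry (pE m n s)) ∧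
  ∀ x y : Y, pE m n s x y = ∫⁻ v, ∏ j ∈ Finset.range (n + 1), s j (vz x y v j) (vz x y v (j + 1)) ∂mZ m n

/-- **Row UKZ** (medium; = RPQ row UNK: helper14/RPQ/UNK.lean; from VXZ, KPZ). Integrability: bounded, and `0` unless `d x (v j) ≤ T` for all `j`: finite measure by `vol` and `Measure.pi_pi`. -/
def UKZ_stmt : Prop := ∀ (Γ : Type) [Group Γ] (Y : Type) [MeasurableSpace Y] [MulAction Γ Y] (m : Measure Y) (D : Set Y) (d : Y → Y → ℝ), PS Γ Y m D d → ∀ s : ℕ → Y → Y → ℂ, (∀ j, KZ Γ d (s j)) → ∀ n : ℕ, KZ Γ d (pC m n s) ∧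
  ∀ x y : Y, Integrable (fun v => ∏ j ∈ Finset.range (n + 1), s j (vz x y v j) (vz x y v (j + 1))) (mZ m n) ∧
    pC m n s x y = ∫ v, ∏ j ∈ Finset.range (n + 1), s j (vz x y v j) (vz x y v (j + 1)) ∂mZ m n

/-- **Row CKZ** (medium; = RPQ row CAK: helper44/RPQ/CAK.lean; from UKZ, KPZ). -/
def CKZ_stmt : Prop := ∀ (Γ : Type) [Group Γ] (Y : Type) [MeasurableSpace Y] [MulAction Γ Y] (m : Measure Y) (D : Set Y) (d : Y → Y → ℝ), PS Γ Y m D d → ∀ s : ℕ → Y → Y → ℂ, (∀ j, KZ Γ d (s j)) →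
  (∀ (a b : ℕ) (x y : Y), pC m (a + 1 + b) s x y = ∫ p, pC m a s x p * pC m b (fun j => s (a + 1 + j)) p y ∂m) ∧
  ∀ (n : ℕ) (f g : Y → ℂ) (x y : Y),
    pC m n (fun j x y => (if j = 0 then f x else 1) * s j x y * (if j = n then g y else 1)) x y = f x * pC m n s x y * g y

/-- **Row MKZ** (short-medium; pure lists; = RPQ row MKS: helper3/RPQ/MKS.lean, its combinatorial parts may be used: RPQ.MKS_stmt). -/
def MKZ_stmt : Prop := ∀ (Y : Type) [MeasurableSpace Y],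
  (∀ (A : Set Y) (s : Y → Y → ℂ) (n : ℕ) (l : List ℕ), l ≠ [] → (∀ j ≤ n, sZ A (n :: l) s j = fun x y => (if j = 0 then A.indicator (fun _ => 1) x else 1) * s x y) ∧
    ∀ j, sZ A (n :: l) s (n + 1 + j) = sZ A l s j) ∧
  ∀ (A : Set Y) (θ : Y → ℝ) (u : Y → Y → ℂ) (l : List ℕ) (w : ℕ → Y), l ≠ [] →
    ∏ j ∈ Finset.range (nst l), sZ A l (stZ θ u) j (w j) (w (j + 1)) = Complex.exp (((∑ j ∈ Finset.range (nst l), θ (w j) : ℝ) : ℂ) * Complex.I) * wgZ u A l w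

/-- **Row WKZ** (short-medium; = RPQ row WDK: helper65/RPQ/WDK.lean; from CKZ, UKZ, MKZ, VXZ, KSZ). -/
def WKZ_stmt : Prop := ∀ (Γ : Type) [Group Γ] (Y : Type) [MeasurableSpace Y] [MulAction Γ Y] (m : Measure Y) (D : Set Y) (d : Y → Y → ℝ), PS Γ Y m D d → ∀ (θ : Y → ℝ) (u : Y → Y → ℂ) (A : Set Y) (l : List ℕ),
  Measurable θ → (∀ (γ : Γ) y, θ (γ • y) = θ y) → KZ Γ d u → MeasurableSet A → InvS Γ A → l ≠ [] →
    ∀ x y : Y, Integrable (fun v => wgZ u A l (vz x y v)) (mZ m (nst l - 1)) ∧ wdZ m (stZ θ u) A l x y =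
      ∫ v, Complex.exp (((∑ j ∈ Finset.range (nst l), θ (vz x y v j) : ℝ) : ℂ) * Complex.I) * wgZ u A l (vz x y v) ∂mZ m (nst l - 1)

/-- the space of the pairs (element of `Γ`, inner vertices) -/
abbrev OmZ (Γ Y : Type) (l : List ℕ) : Type := Γ × (Fin (nst l - 1) → Y)

/-- its measure -/
def mOZ (Γ : Type) [MeasurableSpace Γ] {Y : Type} [MeasurableSpace Y] (m : Measure Y) (l : List ℕ) : Measure (OmZ Γ Y l) :=
  (Measure.count : Measure Γ).prod (mZ m (nst l - 1))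

/-- **Row PIZ** (medium; = RPQ row PIN: helper65/RPQ/PIN.lean; from WKZ, KPZ, VXZ). The sum over `Γ` is finite (`fc`, finite range); joint measurability in `(ξ, x, y)`. -/
def PIZ_stmt : Prop := ∀ (Γ : Type) [Group Γ] [MeasurableSpace Γ] [DiscreteMeasurableSpace Γ] (Y : Type) [MeasurableSpace Y] [MulAction Γ Y] (m : Measure Y) (D : Set Y) (d : Y → Y → ℝ), PS Γ Y m D d → ∀ (J : ℕ) (θ : Fin J → Y → ℝ) (u : Y → Y → ℂ) (A : Set Y) (l : List ℕ),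
  (∀ a, Measurable (θ a) ∧ ∀ (γ : Γ) y, θ a (γ • y) = θ a y) → KZ Γ d u → MeasurableSet A → InvS Γ A → l ≠ [] →
    SigmaFinite (mOZ Γ m l) ∧
    (∀ (ξ : Fin J → ℝ) (x y : Y), perZ Γ (wdZ m (stZ (fun y => ∑ a, ξ a * θ a y) u) A l) x y =
      ∫ q, Complex.exp (((∑ a, ξ a * phZ θ l (vz x (q.1 • y) q.2) a : ℝ) : ℂ) * Complex.I) * wgZ u A l (vz x (q.1 • y) q.2) ∂mOZ Γ m l) ∧
    Measurable fun p : (Fin J → ℝ) × (Y × Y) => perZ Γ (wdZ m (stZ (fun y => ∑ a, p.1 a * θ a y) u) A l) p.2.1 p.2.2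

/-- **Row EHZ** (the second moment; medium-long; from PIZ, VXZ, RPQ.QMB, RPQ.SNC; compare helper98/RPQ/EH1.lean, helper75/RPQ/EHS.lean). Fix `x, y`. QMB for `OmZ` (`letI : MeasurableSpace Γ := ⊤`) with `w = wgZ u A l (vz x (γ y) v)`, `M' = inZ * wM`: `≤ ∫∫ M'(q) M'(q') (und + (9/10)^nc)`. AM-GM: `M'(q) M'(q') und ≤ (M'(q)² + M'(q')²)/2 · und · 1[M' (q) ≠ 0, M'(q') ≠ 0]`, and `und` is symmetric: so the first part is
`≤ ∫ M'(q)² [∫ und 1[M'(q') ≠ 0] dq'] dq ≤ K ∫ M'(q)² dq` (for `q = (γ, v)` the hypothesis on `K` for `x`, `γ y`, `v`; reindex `γ' ↦ γ' γ⁻¹`: the end point `γ' y = (γ' γ⁻¹) (γ y)`). The second part is `≤ (9/10)^nc (∫ M')² ≤ (9/10)^nc S²`. Integrate over `x, y` in `D` (Tonelli in `ξ`; joint measurability from PIZ): `∫_(y in D) Σ_γ f(γ y) = ∫_Y f`.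
`inZ² = inZ`. -/
def EHZ_stmt : Prop := ∀ (Γ : Type) [Group Γ] (Y : Type) [MeasurableSpace Y] [MulAction Γ Y] (m : Measure Y) (D : Set Y) (d : Y → Y → ℝ), PS Γ Y m D d → ∀ (J nc : ℕ) (θ : Fin J → Y → ℝ) (u : Y → Y → ℂ) (M : Y → Y → ENNReal) (A : Set Y) (l : List ℕ) (K S : ENNReal),
  (∀ a, Measurable (θ a) ∧ ∀ (γ : Γ) y, θ a (γ • y) = θ a y) → KZ Γ d u → Measurable (Function.uncurry M) → (∀ (γ : Γ) (x y : Y), M (γ • x) (γ • y) = M x y) → (∀ x y, ‖u x y‖ₑ ≤ M x y) →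
  (∃ T : ℝ, ∀ x y, M x y ≠ 0 → d x y ≤ T) → MeasurableSet A → InvS Γ A → l ≠ [] → S ≠ ⊤ →
  (∀ x y : Y, ∑' γ : Γ, ∫⁻ v, wM M l (vz x (γ • y) v) ∂mZ m (nst l - 1) ≤ S) →
  (∀ (x y : Y) (v : Fin (nst l - 1) → Y), wM M l (vz x y v) ≠ 0 →
    ∑' γ : Γ, mZ m (nst l - 1) {v' | wM M l (vz x (γ • y) v') ≠ 0 ∧ {a : Fin J | 1 ≤ |phZ θ l (vz x y v) a - phZ θ l (vz x (γ • y) v') a|}.ncard < nc} ≤ K) →
    ∫⁻ ξ, ∫⁻ x in D, ∫⁻ y in D, ‖perZ Γ (wdZ m (stZ (fun y => ∑ a, ξ a * θ a y) u) A l) x y‖ₑ ^ 2 ∂m ∂m ∂PJ J ≤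
      K * (∫⁻ x in D, ∫⁻ y, ∫⁻ v, inZ A l (vz x y v) * wM M l (vz x y v) ^ 2 ∂mZ m (nst l - 1) ∂m ∂m) + ENNReal.ofReal ((9 / 10) ^ nc) * S ^ 2 * m D ^ 2

/-! ## The word lemma for `T^b` -/

/-- the admissible lists: `L` syllables `b (x + 1) - 1`, `x < n` -/
def AdZ (b L n : ℕ) : Set (List ℕ) := {l | ∃ c : List ℕ, c.length = L ∧ (∀ x ∈ c, x < n) ∧ l = c.map (fun x => b * x + (b - 1))}

/-- **Row DTZ** (short-medium; from RPQ.WRD; pure; compare DET in helper11/RPQ/DET.lean). `V = c T^b`, `c = (1 + δ0)^(-b)`: `‖V‖ ≤ 1`, `‖V Φ' - Φ'‖` is small for `Φ' = Φ/max(1, ‖Φ‖)` (`‖Φ‖ ≤ 1 + δ0`); `wrd V P c' = c^(..) wrd T P (c'.map (b x + (b-1)))` (`b ≥ 1`, `b (x+1) = (b x + (b-1)) + 1`), of norm `≤ δ0`. WRD with `ε = e/4`;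
`‖P Φ‖² ≤ (1 + δ0)² ‖P Φ'‖²`. -/
def DTZ_stmt : Prop := ∀ (e : ℝ) (b L n : ℕ), 0 < e → 1 ≤ b → 1 ≤ L → 1 ≤ n → ∃ δ0 : ℝ, 0 < δ0 ∧
  ∀ (H : Type) [NormedAddCommGroup H] [InnerProductSpace ℂ H] [CompleteSpace H] (T P : H →L[ℂ] H) (Φ : H), ‖T‖ ≤ 1 + δ0 → OProj P → ‖Φ‖ ≤ 1 + δ0 → ‖T Φ - Φ‖ ≤ δ0 →
    (∀ l ∈ AdZ b L n, ‖wrd T P l‖ ≤ δ0) → ‖P Φ‖ ^ 2 ≤ (2 * L + 1) / n + e

end

end Pool.Agent.VQ
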