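import Pool.Agent.helper11.VQ.Spec3i

/-!
# Project VQ (MP_07c750_an, quantum unique ergodicity, weight 10), block 3b: mass of the words, detection, counting, one word, rows `vq:X`

RULES. Row `vq:XXX`: file `Pool/Agent/<seat>/VQ/XXX.lean`, `import Pool.Agent.helper11.VQ.Spec3b`, `set_option autoImplicit false`, namespace `Pool.Agent.VQ`, auxiliary lemmas prefixed `XXX_`, theorem `XXX_proof : XXX_stmt` (rows listed in `from` may be used as hypotheses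
`(h : YYY_stmt)`; rows of RPQ as `(h : RPQ.YYY_stmt)`; rows of QU, RS, EN, RPQ are proved: `import Pool.Agent.helper11.RPQ.All` gives `Pool.Agent.RPQ.A_INJ`, `Pool.Agent.RS.A_GMG`, ...). No `convert`, `congr!`, `native_decide`, no double quotes, no `private`.

CAREFUL with the orders of quantifiers: `δ0` and the first constants depend on `Γ` only (not on the bounds `B` of the derivatives of the potential).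
-/

open scoped MatrixGroups ContDiff Topology UpperHalfPlane ComplexConjugate ENNReal
open UpperHalfPlane MeasureTheory Filter Set

namespace Pool.Agent.VQ

open Pool.Agent.RS
open Pool.Agent.RPQ (CEig mean VV IsOp IsMul OProj wrd PJ nst mks MO Net Cl)

noncomputable section

/-! ## Mass of the words (abstract) -/

/-- the mass kernel of a word -/
def wE {Y : Type} [MeasurableSpace Y] (m : Measure Y) (M2 : Y → Y → ENNReal) (A : Set Y) : List ℕ → Y → Y → ENNReal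
  | [] => fun _ _ => 0
  | [n] => fun x y => A.indicator (fun _ => 1) x * pE m n (fun _ => M2) x y * A.indicator (fun _ => 1) y
  | n :: k :: l => fun x y => ∫⁻ p, A.indicator (fun _ => 1) x * pE m n (fun _ => M2) x p * wE m M2 A (k :: l) p y ∂m

/-- **Row CEZ** (short-medium; = RPQ row CAE in the abstract setting: copy helper33/RPQ/CAE.lean; from UNZ). Induction on `a` for all `s`. -/
def CEZ_stmt : Prop := ∀ (Y : Type) [MeasurableSpace Y] (m : Measure Y) [SigmaFinite m] (s : ℕ → Y → Y → ENNReal), (∀ j, Measurable (Function.uncurry (s j))) →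
  (∀ (a b : ℕ) (x y : Y), pE m (a + 1 + b) s x y = ∫⁻ p, pE m a s x p * pE m b (fun j => s (a + 1 + j)) p y ∂m) ∧
  ∀ (n : ℕ) (f g : Y → ENNReal), Measurable f → Measurable g → ∀ x y : Y,
    pE m n (fun j x y => (if j = 0 then f x else 1) * s j x y * (if j = n then g y else 1)) x y = f x * pE m n s x y * g y

/-- **Row WEZ** (short-medium; compare WDE in helper98/RPQ/WDE.lean; from CEZ, UNZ, VXZ; the combinatorics of `mks`, `sZ` from helper69/VQ/MKZ.lean, repeated for `ENNReal`). `wE m M² A l = pE m (nst l - 1) (sZ A l M²)` by induction on `l` (CEZ; `sZ A (n :: l) s j = (if j = 0 then 1_A else 1) s` for `j ≤ n` and `= sZ A l s (j - n - 1)` beyond),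
then UNZ; the product of the `sZ A l M² j (w j) (w (j+1))` is `inZ A l w * (wM M l w)²`. -/
def WEZ_stmt : Prop := ∀ (Y : Type) [MeasurableSpace Y] (m : Measure Y) [SigmaFinite m] (M : Y → Y → ENNReal) (A : Set Y) (l : List ℕ), Measurable (Function.uncurry M) → MeasurableSet A → l ≠ [] →
  Measurable (Function.uncurry (wE m (fun x y => M x y ^ 2) A l)) ∧
  ∀ x y : Y, ∫⁻ v, inZ A l (vz x y v) * wM M l (vz x y v) ^ 2 ∂mZ m (nst l - 1) = wE m (fun x y => M x y ^ 2) A l x y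

/-- **Row MSZ** (the mass of the words; medium; from CEZ, UNZ, WEZ). `Q V x = ∫⁻ M² V`, so `qZ m M n V = Q^n V` and `∫⁻ y, pE m n M² x y * V y = Q^(n+1) V x` (measurable `V`). `Ψ_l(x) = ∫⁻ y, wE l x y`: `Ψ_[n] = 1_A Q^(n+1) 1_A`, `Ψ_(n :: l) = 1_A Q^(n+1) Ψ_l` (Tonelli). For `x ∈ G j`, `j + (n + 1) ≤ N`, `b ≤ n + 1`:
`Q^(n+1) 1_A (x) = Q^(n+1-b) (Q^b 1_A)(x) ≤ c^(n+1-b) c^b q` (only `y ∈ G (j + n + 1 - b)` contribute: induction on the number of steps). Claim by induction on `l`: for `x ∈ G j`, `j + nst l ≤ N`: `Ψ_l(x) ≤ c^(nst l) q^(length l)`, and `Ψ_l = 0` off `A`: for `n :: l` use `Ψ_l(p) ≤ c^(nst l) q^(length l) 1_A(p)` for the `p ∈ G (j + n + 1)`.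
All elements of `l ∈ AdZ b L n` satisfy `b ≤ n' + 1`. -/
def MSZ_stmt : Prop := ∀ (Y : Type) [MeasurableSpace Y] (m : Measure Y) [SigmaFinite m] (M : Y → Y → ENNReal) (A D : Set Y) (G : ℕ → Set Y) (c q : ENNReal) (b N L n : ℕ) (l : List ℕ), Measurable (Function.uncurry M) → MeasurableSet A →
  (∀ x ∈ A, x ∈ G 0) → (∀ (j : ℕ) (x y : Y), x ∈ G j → M x y ≠ 0 → y ∈ G (j + 1)) → (∀ x : Y, ∫⁻ y, M x y ^ 2 ∂m ≤ c) → (∀ j ≤ N, ∀ x ∈ G j, qZ m M b (A.indicator (fun _ => 1)) x ≤ c ^ b * q) →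
  1 ≤ b → 1 ≤ L → l ∈ AdZ b L n → nst l ≤ N →
    ∫⁻ x in D, ∫⁻ y, ∫⁻ v, inZ A l (vz x y v) * wM M l (vz x y v) ^ 2 ∂mZ m (nst l - 1) ∂m ∂m ≤ c ^ nst l * q ^ L * m D

/-- **Row PSC** (phase space is a `PS`; short-medium; from RS: GMG, GLI, GLC, GBD; RPQ.INJ; QU: DOB, DOM). `Γ` is countable (discrete); `mG` is σ-finite and left invariant, `mW R` is a product with a finite measure; `uniq` is `NiceDom.uniq` for `g • I`; `mG (dG F) < ⊤`; `dist (x • I) (y • I)` is continuous and invariant; `mG {h | dist (g•I) (h•I) ≤ T}` is finite and independent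
of `g`; `fc` is RPQ.INJ. -/
def PSC_stmt : Prop := ∀ (Γ : Subgroup SL(2, ℝ)) (F : Set ℍ) (R : ℝ), QU.SurfaceGroup Γ → QU.NiceDom Γ F → PS Γ (SL(2, ℝ) × ℝ) (mW R) (DW F) dW

/-! ## The flow (these statements are proved by the blocks FL and 4a) -/

/-- **FLB**: additivity, invariance and reversibility of the flow (uniqueness for the differential equation `g' = g X_E(g)`; `rho` and `U` are invariant, `kap U E (g * kM (π/2)) = - kap U E g`, `kM(π/2)⁻¹ A0 kM(π/2) = -A0`). -/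
def FLB_stmt : Prop := ∀ Γ : Subgroup SL(2, ℝ), QU.SurfaceGroup Γ → ∃ δ0 : ℝ, 0 < δ0 ∧ ∀ (B : ℕ → ℝ) (D : Dyn), OKD Γ δ0 B D → ∀ E : ℝ, |E| ≤ 1 / 8 →
  (∀ (s t : ℝ) (g : SL(2, ℝ)), D.fl E (s + t) g = D.fl E s (D.fl E t g)) ∧ (∀ (γ : Γ) (t : ℝ) (g : SL(2, ℝ)), D.fl E t ((γ : SL(2, ℝ)) * g) = (γ : SL(2, ℝ)) * D.fl E t g) ∧
  ∀ (t : ℝ) (g : SL(2, ℝ)), D.fl E (-t) (g * kM (Real.pi / 2)) = D.fl E t g * kM (Real.pi / 2)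

/-- **FLG**: Gronwall's lemma for two orbits and two energies -/
def FLG_stmt : Prop := ∀ Γ : Subgroup SL(2, ℝ), QU.SurfaceGroup Γ → ∃ δ0 C c0 : ℝ, 0 < δ0 ∧ 1 ≤ C ∧ 0 < c0 ∧ ∀ (B : ℕ → ℝ) (D : Dyn), OKD Γ δ0 B D → ∀ (E E' t η : ℝ) (g g' : SL(2, ℝ)), |E| ≤ 1 / 8 → |E'| ≤ 1 / 8 → 0 < η →
  EN.nr η (g⁻¹ * g') → |E - E'| ≤ η → η * Real.exp (C * |t|) ≤ c0 → EN.nr (C * η * Real.exp (C * |t|)) ((D.fl E t g)⁻¹ * D.fl E' t g')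

/-- **Row FST** (the flow for short times; medium; from FLB (additivity); pure analysis). `|U(g•I) - 1| ≤ δ0 ≤ 1/8` (`Pot.near` for `n = 0`, `v = 0`: `Ug U g 0 = U(g•I)`), `|n2 U g| ≤ δ0`, so `1/2 ≤ rho ≤ 2`, `|kap| ≤ 1`. `x(u) = g⁻¹ fl E u g` satisfies `x' = x X`, `x(0) = 1`, `|X_ij| ≤ 2`: `|x(u)_ij - 1_ij| ≤ C |u|` for `|u| ≤ 1` (mean value, Gronwall).
The matrix `y(u) = (g * aM (rho u))⁻¹ fl E u g = aM(-rho u) x(u)`, `rho = rho U E g`: `y' = aM(-rho u) (x X - rho A0 x)`, and modulo terms of size `C |u|` this is `X(x(u)) - rho A0 = kap K0 + O(u)` (`rho` is Lipschitz along the orbit: `(d/du) rho(fl)² = rho n1 U(fl)`, bounded by `δ0`). So `y(u) = 1 + kap u K0 + O(u²)`: `y(u) kM(θ)` with `θ = - kap u/2` is `1 + O(u²)`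
(`K0` is the derivative of `s ↦ kM(s/2)`), and `kM θ • I = I`: `dist (y(u) • I) I ≤ C u²`. -/
def FST_stmt : Prop := ∀ Γ : Subgroup SL(2, ℝ), QU.SurfaceGroup Γ → ∃ δ0 C : ℝ, 0 < δ0 ∧ 1 ≤ C ∧ ∀ (B : ℕ → ℝ) (D : Dyn), OKD Γ δ0 B D → (∀ z : ℍ, |D.U z - 1| ≤ 1 / 8) ∧ ∀ (E : ℝ) (g : SL(2, ℝ)), |E| ≤ 1 / 8 → 1 / 2 ≤ rho D.U E g ∧ rho D.U E g ≤ 2 ∧
  ∀ s u : ℝ, 0 < s → s ≤ 1 → |u| ≤ s → EN.nr (C * s) (g⁻¹ * D.fl E u g) ∧ dist (D.fl E u g • I : ℍ) ((g * aM (rho D.U E g * u)) • I) ≤ C * u ^ 2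

/-- **Row MTV** (measurability and invariance of the phases; medium; from FLB, FST). `(u, p) ↦ D.fl p.2 u p.1` is measurable (continuous for `|p.2| ≤ 1/8` (`cfl`), `= p.1` otherwise (`out`)), so for continuous `f` the function `(u, p) ↦ D.U(..) f(..)` is jointly measurable and for every `p` continuous in `u`; a parametric integral over a bounded interval is measurable
(`StronglyMeasurable.integral_prod_right'`, `intervalIntegral` as a set integral). Invariance: FLB for `|E| ≤ 1/8`, trivial otherwise. -/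
def MTV_stmt : Prop := ∀ Γ : Subgroup SL(2, ℝ), QU.SurfaceGroup Γ → ∃ δ0 : ℝ, 0 < δ0 ∧ ∀ (B : ℕ → ℝ) (D : Dyn) (F : Set ℍ) (f : ℍ → ℝ) (R t e : ℝ), OKD Γ δ0 B D → QU.NiceDom Γ F → QU.Inv Γ f →
  Measurable (thP D f R t) ∧ (∀ (γ : Γ) (p : SL(2, ℝ) × ℝ), thP D f R t (γ • p) = thP D f R t p) ∧ Measurable (avP D f t) ∧ (∀ (γ : Γ) (p : SL(2, ℝ) × ℝ), avP D f t (γ • p) = avP D f t p) ∧
  MeasurableSet (BadP D F f e t ∩ {p | |p.2| ≤ R ^ (-(1 / 4) : ℝ)}) ∧ InvS Γ (BadP D F f e t ∩ {p : SL(2, ℝ) × ℝ | |p.2| ≤ R ^ (-(1 / 4) : ℝ)})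

/-! ## Detection and counting -/

/-- the frame at the time `s` of the chain with the vertices `w` (steps of length `t`) -/
def frZ (D : Dyn) (t : ℝ) (w : ℕ → SL(2, ℝ) × ℝ) (s : ℝ) : SL(2, ℝ) := D.fl (w ⌊s / t⌋₊).2 (s - ⌊s / t⌋₊ * t) (w ⌊s / t⌋₊).1

/-- the phase of `χ a` along the chain -/
def thN (D : Dyn) (f : ℍ → ℝ) (K t : ℝ) (N : ℕ) (w : ℕ → SL(2, ℝ) × ℝ) : ℝ := ∑ j ∈ Finset.range N, thP D f K t (w j)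

/-- the two chains are not detected by more than `nc` of the bumps -/
def UndV (D : Dyn) {J : ℕ} (χ : Fin J → ℍ → ℝ) (K t : ℝ) (N nc : ℕ) (w w' : ℕ → SL(2, ℝ) × ℝ) : Prop :=
  {a : Fin J | 1 ≤ |thN D (χ a) K t N w - thN D (χ a) K t N w'|}.ncard < nc

/-- chains with small jumps and small energies -/
def JP (D : Dyn) (t r : ℝ) (N : ℕ) (w : ℕ → SL(2, ℝ) × ℝ) : Prop := ∀ j < N, Nb r (D.ph t (w j)) (w (j + 1)) ∧ |(w j).2| ≤ r ∧ |(w (j + 1)).2| ≤ r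

/-- **Row PIV** (detection; medium-long; adaptation of helper54/RPQ/PIG.lean; from FST, FLB, RPQ.TPT, RPQ.INJ, RS: GLC). `fr = frZ D t w`, `fr' = frZ D t w'`; in every interval `[it, (i+1)t)` they are orbits of `fl` (additivity FLB). `s' ∈ [it, (i+1)t)`; `[a, a+ρ1]` in this interval contains `s'`. `s'_k = a + ρ/4 + 4ρk`, `k < m`, `m ≥ ρ1/(8ρ)`. Choose `j_k, γ_k` with `dist (fr'(s'_k)•I) (γ_k p_(j_k)) ≤ ρ/4` (`Net.cover`).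
The `j_k` are different: by FST the distance of `fr'(s'_k)•I` and `fr'(s'_k')•I` is between `(1/2 - C ρ1) 4ρ|k - k'| > ρ/2` and `3 ρ1` (so INJ gives `γ_k = γ_k'` if `j_k = j_k'`). `χ_(j_k) = 1` at `fr'(s)•I` for `|s - s'_k| ≤ ρ/16` (distance `≤ ρ/8 + C ρ² ≤ ρ/4`), so `|thN D (χ_(j_k)) K t N w'| ≥ |K|/2 (7/8) ρ/8 ≥ 3` (all terms have the same sign, `U ≥ 7/8`).
By `UndV`, for all but `nc` of the `k`, `thN D (χ_(j_k)) K t N w ≠ 0`, so there is `s_k ∈ [0, Nt)` with `χ_(j_k)(fr(s_k)•I) ≠ 0`, so `dist (fr'(s'_k)•I) (γ'_k fr(s_k)•I) ≤ 5ρ/4`. Cut `[0, Nt)` into at most `C (N t + 1)` intervals of length `≤ ρ10`, each inside one `[it, (i+1)t)`; pigeonhole: one contains `s_k` for more than `1/ρ1 + 1` indices, so there are two, `k < k'`, with `k' - k ≥ 1/ρ1`.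
`γ'_k = γ'_k' = γ` by INJ. TPT with `h = fr'(s'_k)⁻¹ γ fr(s_k)`, `D = rho' (s'_k' - s'_k) ∈ [2ρ/ρ1, 2 ρ1]`, `D' = rho (s_k' - s_k)` (`rho'`, `rho` the speeds at `fr'(s'_k)`, `fr(s_k)`), `δ = C (ρ + D²)`: by FST the positions at `s'_k'`, `s_k'` are those of `aM D`, `aM D'` up to `C D²`, `C D'²`, and `|D'| ≤ 3 D` (as `|D'|/2 ≤ dist ≤ D + C ρ + C D²` if `ρ10` is small): so `C δ/D ≤ C' ρ1`,
`Cl (C' ρ1)`. Move from `s'_k` to `s'` (`|s' - s'_k| ≤ ρ1`; FST: `EN.nr (C ρ1)`). -/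
def PIV_stmt : Prop := ∀ (Γ : Subgroup SL(2, ℝ)) (κ : ℝ → ℝ), QU.SurfaceGroup Γ → ∃ δ0 C ρ10 : ℝ, 0 < δ0 ∧ 1 ≤ C ∧ 0 < ρ10 ∧ ρ10 ≤ 1 ∧ ∀ (B : ℕ → ℝ) (C0 ρ ρ1 K t : ℝ) (J : ℕ) (p : Fin J → ℍ) (χ : Fin J → ℍ → ℝ) (N nc : ℕ) (D : Dyn) (w w' : ℕ → SL(2, ℝ) × ℝ),
  OKD Γ δ0 B D → 0 < ρ → 0 < ρ1 → ρ1 ≤ ρ10 → 1 ≤ t → 64 / ρ ≤ |K| → nc + C * (N * t + 1) / ρ1 ≤ ρ1 / (32 * ρ) → Net Γ κ ρ C0 J p χ → (∀ j < N, |(w j).2| ≤ 1 / 8 ∧ |(w' j).2| ≤ 1 / 8) → UndV D χ K t N nc w w' →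
    ∀ s' : ℝ, 0 ≤ s' → s' < N * t → ∃ (s : ℝ) (γ : Γ), 0 ≤ s ∧ s < N * t ∧ Cl (C * ρ1) (frZ D t w' s') ((γ : SL(2, ℝ)) * frZ D t w s)

/-- **Row CNV** (staying close; medium; from FLB, FLG, FST, RS: GLC). Let `C1` be the constant of FLG; `C = 2 C1 + ..`. (1) For `k0 = kM (i π/2)`: `fl E s (g * k0) = fl E (±s) g * k0` (FLB twice; sign `+` for even `i`). `Cl`: `x⁻¹ * y * k0` near `1`, that is FLG for `g = x`, `g' = y * k0`, energies `E`, `0`: after the time `s`, `|s| ≤ Λ`, `e^(CΛ) ≤ ρ1^(-1/2)`, the frames differ by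
`≤ C1² ρ1^(1/2)`, so the points have distance `≤ 1` (`EN.nr` small implies distance `≤ 1`). (2) `fl 0 v y * k0 = fl 0 (±v) (y * k0)`, so the second point is moved by the flow for the time `±v`: cut `[0, v]` into `n` pieces, FST: distance `≤ 2 v + C v²/n ≤ 3`. (3) the chain: between `s` and `s + v` (`v ≤ Λ ≤ t`) there is at most one jump: `frZ (s + v) = fl E' (v - v1) (w_(j+1))` with `w_(j+1) = ± fl E v1 (frZ s) b`, `b` within `r` of `±1` (`fl` commutes with `-1 = kM π`); compare with `fl 0 v (frZ s)`: FLG twice (energies `E`, `E'` and `0`, forcing `r ≤ ρ1`).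
For `s + v = N t` the frame is `w N` (if `t > 0`, `⌊N t/t⌋ = N`). -/
def CNV_stmt : Prop := ∀ Γ : Subgroup SL(2, ℝ), QU.SurfaceGroup Γ → ∃ δ0 C : ℝ, 0 < δ0 ∧ 1 ≤ C ∧ ∀ C2 : ℝ, 1 ≤ C2 → ∃ ρ10 : ℝ, 0 < ρ10 ∧ ρ10 ≤ 1 / 8 ∧ ∀ (B : ℕ → ℝ) (D : Dyn) (ρ1 : ℝ), OKD Γ δ0 B D → 0 < ρ1 → ρ1 ≤ ρ10 →
  (∀ (x y : SL(2, ℝ)) (s : ℝ) (i : ℕ), Real.exp (C * |s|) ≤ ρ1 ^ (-(1 / 2) : ℝ) → EN.nr (C2 * ρ1) (x⁻¹ * y * kM (i * (Real.pi / 2))) → dist (D.fl 0 s x • I : ℍ) (D.fl 0 s (y * kM (i * (Real.pi / 2))) • I) ≤ 1) ∧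
  (∀ (y : SL(2, ℝ)) (s v : ℝ) (i : ℕ), 0 ≤ v → v ≤ 1 → dist (D.fl 0 s (D.fl 0 v y * kM (i * (Real.pi / 2))) • I : ℍ) (D.fl 0 s (y * kM (i * (Real.pi / 2))) • I) ≤ 3) ∧
  ∀ (t r : ℝ) (N : ℕ) (w : ℕ → SL(2, ℝ) × ℝ), 1 ≤ t → 0 < r → r ≤ ρ1 → JP D t r N w → ∀ (s v x : ℝ) (i : ℕ), 0 ≤ s → 0 ≤ v → v ≤ t → s + v ≤ N * t → Real.exp (C * v) ≤ ρ1 ^ (-(1 / 2) : ℝ) → Real.exp (C * |x|) ≤ ρ1 ^ (-(1 / 2) : ℝ) → v = 0 ∨ x = 0 ∨ v ≤ 1 →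
    dist (D.fl 0 x (frZ D t w (s + v) * kM (i * (Real.pi / 2))) • I : ℍ) (D.fl 0 x (D.fl 0 v (frZ D t w s) * kM (i * (Real.pi / 2))) • I) ≤ 1

/-- **Row CNTV** (the number of undetected classes; medium-long; adaptation of helper8/RPQ/CNT.lean; from PIV, CNV, FLB, FST, RPQ.INJ, RS: GLC). `T = N t`, `Λ = log (1/ρ1)/(2 C)` with `C` from CNV (so `e^(CΛ) = ρ1^(-1/2)`, `Λ ≤ t`). For `γ'` in the set with the chain `w'`: times `s'_i = i Λ < T`, `i < S = ⌈T/Λ⌉`. PIV: `s_i`, `η_i ∈ Γ`, `k_i = kM(m_i π/2)`: `EN.nr (C ρ1) (fr'(s'_i)⁻¹ η_i fr(s_i) k_i)`. Put `n_i = ⌊s_i⌋`.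
By CNV the points `fr'(s'_(i+1))•I`, `fl 0 Λ (fr'(s'_i))•I`, `fl 0 Λ (η_i fr(s_i) k_i)•I`, `fl 0 Λ (η_i fl 0 (s_i - n_i) (fr(n_i)) k_i)•I`, `fl 0 Λ (η_i fr(n_i) k_i)•I` have consecutive distances `≤ 3`, and `fr'(s'_(i+1))•I` is at distance `≤ 4` from `η_(i+1) fr(n_(i+1))•I`: so `dist (fl 0 Λ (η_i fr(n_i) k_i)•I) (η_(i+1) fr(n_(i+1))•I) ≤ 14`.
Given the state `(η_i, n_i, m_i)` there are at most `(T+1) · 4 · n(14)` states `(η_(i+1), n_(i+1), m_(i+1))` (INJ). At `i = 0`: `dist (x•I) (η_0 fr(n_0)•I) ≤ 14`. At the end: `γ' y•I = w' N•I` is at distance `≤ 14` from `fl 0 (T - s'_(S-1)) (η_(S-1) fr(n_(S-1)) k)•I`. So the number of `γ'` is at most `(4 n(14) (T+1))^(S+1)`. (The same induction as in CNT.) -/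
def CNTV_stmt : Prop := ∀ (Γ : Subgroup SL(2, ℝ)) (κ : ℝ → ℝ), QU.SurfaceGroup Γ → ∃ δ0 C' ρ10 : ℝ, 0 < δ0 ∧ 1 ≤ C' ∧ 0 < ρ10 ∧ ρ10 ≤ 1 / 8 ∧ ∀ (B : ℕ → ℝ) (C0 ρ ρ1 r K t : ℝ) (J : ℕ) (p : Fin J → ℍ) (χ : Fin J → ℍ → ℝ) (N nc : ℕ) (D : Dyn) (x y : SL(2, ℝ) × ℝ) (w : ℕ → SL(2, ℝ) × ℝ),
  OKD Γ δ0 B D → 1 ≤ N → 0 < ρ → 0 < r → r ≤ ρ1 → ρ1 ≤ ρ10 → 1 ≤ t → Real.log (1 / ρ1) ≤ t → 64 / ρ ≤ |K| → nc + C' * (N * t + 1) / ρ1 ≤ ρ1 / (32 * ρ) → Net Γ κ ρ C0 J p χ → w 0 = x → JP D t r N w →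
    {γ : Γ | ∃ w' : ℕ → SL(2, ℝ) × ℝ, w' 0 = x ∧ w' N = γ • y ∧ JP D t r N w' ∧ UndV D χ K t N nc w w'}.Finite ∧
    ({γ : Γ | ∃ w' : ℕ → SL(2, ℝ) × ℝ, w' 0 = x ∧ w' N = γ • y ∧ JP D t r N w' ∧ UndV D χ K t N nc w w'}.ncard : ℝ) ≤ (C' * (N * t + 1)) ^ (C' * N * t / Real.log (1 / ρ1) + 3)

/-- **Row PARV** (the parameters; short-medium; pure asymptotics; compare helper77/RPQ/PAR.lean). `x = log R → ∞`, `ρ1 = x^(-a)`, `a = 64 C' N + 1`, `nc = ⌈M1 x / log (10/9)⌉ ≤ 10 M1 x + 1`. `x^(-a)/(32 ρ) ≥ x^(a+2)/32`, and `nc + C' (N' t + 1) x^a ≤ C'' x^(a+1)`. The logarithm of the last quantity is `(C' N' t/(a log x) + 3) log (C' (N' t + 1))` and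
`log (C' (N x + 1)) ≤ 2 log x` for large `x`: `≤ 2 C' N x/a + 6 log x ≤ x/16 + x/16`. -/
def PARV_stmt : Prop := ∀ (N : ℕ) (M1 C' ρ10 c : ℝ), 1 ≤ N → 1 ≤ M1 → 1 ≤ C' → 0 < ρ10 → 0 < c → ∃ a R0 : ℝ, 1 ≤ a ∧ 3 ≤ R0 ∧ ∀ R ρ t : ℝ, R0 ≤ R → 0 < ρ → ρ ≤ (Real.log R) ^ (-(2 * a + 2)) → c * Real.log R ≤ t → t ≤ Real.log R →
  ∃ nc : ℕ, ((9 : ℝ) / 10) ^ nc ≤ R ^ (-M1) ∧ R ^ (-(1 / 5) : ℝ) ≤ (Real.log R) ^ (-a) ∧ (Real.log R) ^ (-a) ≤ ρ10 ∧ Real.log (1 / (Real.log R) ^ (-a)) ≤ t ∧ 1 ≤ t ∧ ∀ N' : ℕ, 1 ≤ N' → N' ≤ N →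
    nc + C' * (N' * t + 1) / (Real.log R) ^ (-a) ≤ (Real.log R) ^ (-a) / (32 * ρ) ∧
    (C' * (N' * t + 1)) ^ (C' * N' * t / Real.log (1 / (Real.log R) ^ (-a)) + 3) ≤ R ^ (1 / 8 : ℝ)

/-! ## One word -/

/-- The hypotheses for the words of at most `N` big steps at the frequency `R`; `b` = number of big steps in a block, `θ` = exponent of the large deviations, `ζ` = loss in the volume of the chains, `S` = the bad set. -/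
structure VH (Γ : Subgroup SL(2, ℝ)) (ch : ℝ → ℝ) (D : Dyn) (A : Prm) (R θ ζ c0 M0 : ℝ) (N b nc J : ℕ) (χ : Fin J → ℍ → ℝ) (K : ℝ) (S : Set (SL(2, ℝ) × ℝ)) : Prop where
  ker : KZ Γ dW (ub D ch A R)
  bd : ∀ p q, ‖ub D ch A R p q‖ ≤ R ^ 3
  rng : ∀ p q, ub D ch A R p q ≠ 0 → dW p q ≤ Real.log R
  rch : ∀ p q, ub D ch A R p q ≠ 0 → Reach D A R p q
  row : ∀ p, ∫⁻ q, ‖ub D ch A R p q‖ₑ ^ 2 ∂mW R ≤ ENNReal.ofReal c0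
  c0 : R ^ 2 / (2 * Real.pi) ≤ c0 ∧ c0 ≤ R ^ 2
  jmp : ∀ p q, Reach D A R p q → |p.2 - q.2| ≤ R ^ (-(1 / 4) : ℝ) / (4 * N)
  vol : ∀ N' : ℕ, 1 ≤ N' → N' ≤ N → ∀ p q, mZ (mW R) (N' - 1) {v | Ch D A R N' (vz p q v)} ≤ ENNReal.ofReal ((R ^ (-2 + ζ)) ^ (N' - 1))
  loss : 0 ≤ ζ ∧ N * ζ ≤ 1 / 4
  ld : ∀ p : SL(2, ℝ) × ℝ, p.2 ∈ Wi (5 / 4) R → qZ (mW R) (fun x y => ‖ub D ch A R x y‖ₑ) b (S.indicator (fun _ => 1)) p ≤ ENNReal.ofReal (R ^ (-θ) * (R ^ 2 / (2 * Real.pi)) ^ b)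
  cnt : ∀ N' : ℕ, 1 ≤ N' → N' ≤ N → ∀ (x y : SL(2, ℝ) × ℝ) (w : ℕ → SL(2, ℝ) × ℝ), w 0 = x → Ch D A R N' w →
    {γ : Γ | ∃ w' : ℕ → SL(2, ℝ) × ℝ, w' 0 = x ∧ w' N' = γ • y ∧ Ch D A R N' w' ∧ UndV D χ K (A.tu R) N' nc w w'}.Finite ∧
    ({γ : Γ | ∃ w' : ℕ → SL(2, ℝ) × ℝ, w' 0 = x ∧ w' N' = γ • y ∧ Ch D A R N' w' ∧ UndV D χ K (A.tu R) N' nc w w'}.ncard : ℝ) ≤ R ^ (1 / 8 : ℝ)
  nc1 : ((9 : ℝ) / 10) ^ nc ≤ R ^ (-(10 * N + M0 + 10))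

/-- **Row WXV** (the second moment of one word; medium; from EHZ, MSZ, PSC, MTV, KSZ, VXZ, RPQ.GRW). EHZ for `m = mW R`, `D = DW F`, `d = dW` (PSC), `θ a = thP D (χ a) K (A.tu R)` (MTV), `u = stZ W' (ub D ch A R)` (KSZ; `‖u‖ = ‖ub‖`), `M = ‖ub‖ₑ`, the set `A' = S'`. `N' = nst l ≤ N`, `N' ≥ 1`.
`K` of EHZ: `≤ ofReal (R^(1/8) (R^(-2+ζ))^(N'-1))`: only the `γ` of `cnt` contribute (a chain with `wM ≠ 0` is a `Ch`, `rch`; `w = vz x y v`, `w' = vz x (γ•y) v'`; `phZ θ l w a = thN ..`), each at most `vol`. `S` of EHZ: the `γ` with a chain from `x` to `γ y` satisfy `dW x (γ•y) ≤ N log R` (`rng`), their number is `≤ C e^(N log R)` (GRW), each integral is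
`≤ (R^3)^N' vol ≤ R^(3N)`: `S = ofReal (R^(4N+1)) `. MSZ with `c = ofReal c0`, `q = ofReal (R^(-θ))`, `G j = {p | |p.2| ≤ R^(-1/4) (1 + j/(4N))}` (`jmp`; for `j ≤ N` it is in `Wi (5/4) R`), `ld` and monotonicity (`S' ⊆ S`). Total `≤ 2 mD R^(1/8) R^(-2(N'-1)+1/4) R^(2N') R^(-θ L) + mD² R^(-(10N+M0+10)) R^(8N+2) ≤ R^(-M0)` if `M0 + 3 ≤ θ L` and `R ≥ R0`
(`mD = mW R (DW F) ≤ 4 mG (dG F)`). -/
def WXV_stmt : Prop := ∀ (Γ : Subgroup SL(2, ℝ)) (F : Set ℍ) (ch : ℝ → ℝ) (N : ℕ) (M0 : ℝ), QU.SurfaceGroup Γ → QU.NiceDom Γ F → 1 ≤ N → 0 ≤ M0 → ∃ δ0 R0 : ℝ, 0 < δ0 ∧ 3 ≤ R0 ∧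
  ∀ (B : ℕ → ℝ) (D : Dyn) (A : Prm) (R θ ζ c0 : ℝ) (b L n nc J : ℕ) (χ : Fin J → ℍ → ℝ) (K : ℝ) (S S' : Set (SL(2, ℝ) × ℝ)) (W' : SL(2, ℝ) × ℝ → ℝ) (l : List ℕ), R0 ≤ R → OKD Γ δ0 B D → (∀ a, QU.Inv Γ (χ a)) →
    VH Γ ch D A R θ ζ c0 M0 N b nc J χ K S → MeasurableSet S' → InvS Γ S' → (∀ p ∈ S', p ∈ S ∧ |p.2| ≤ R ^ (-(1 / 4) : ℝ)) → Measurable W' → (∀ (γ : Γ) p, W' (γ • p) = W' p) →
    1 ≤ b → 1 ≤ L → l ∈ AdZ b L n → nst l ≤ N → 0 < θ → M0 + 3 ≤ θ * L →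
      ∫⁻ ξ, ∫⁻ x in DW F, ∫⁻ y in DW F, ‖perZ Γ (wdZ (mW R) (stZ (fun p => ∑ a, ξ a * thP D (χ a) K (A.tu R) p) (stZ W' (ub D ch A R))) S' l) x y‖ₑ ^ 2 ∂mW R ∂mW R ∂PJ J ≤ ENNReal.ofReal (R ^ (-M0))

end

end Pool.Agent.VQ
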