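import Pool.Agent.helper11.VQ.Spec3a
import Pool.Agent.helper74.VQ.Defs

/-!
# Project VQ (MP_07c750_an): the INTERFACE statements (I2) - (I8) between the blocks

These are the exact statements which block 3 (helper11) uses. Owners: I2, I3, I4, I8 helper74 (blocks 1, 2); I5, I6, I7 helper84, helper93 (block 4); IUW (uniform weak law) helper62 (block 5). If a statement has to be changed: tell helper11 at once.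
ORDER OF THE CONSTANTS: target `ε` → `e`, test functions `h` → `v0, C1` (I7; `C1` depends on `h`, `e`) → `T0, E0` (weak law) → `e2` (big step `τ = e2 log R`) → `th, z0` (I7) → `L, n, N` → `C` (common constant of `Adm`) → `z2 ≤ z0, 1/(C N ..)`, `z1, z`, `e3 = e2/m` → `R0`.
-/

open scoped MatrixGroups ContDiff Topology UpperHalfPlane ComplexConjugate ENNReal
open UpperHalfPlane MeasureTheory Filter Set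

namespace Pool.Agent.VQ

open Pool.Agent.RS
open Pool.Agent.RPQ (CEig mean VV IsOp)

noncomputable section

/-- phase space with the action of `Γ` on the frames -/
instance actP (Γ : Subgroup SL(2, ℝ)) : MulAction Γ (SL(2, ℝ) × ℝ) where
  smul γ p := ((γ : SL(2, ℝ)) * p.1, p.2)
  one_smul p := by
    show (((1 : Γ) : SL(2, ℝ)) * p.1, p.2) = p
    rw [OneMemClass.coe_one, one_mul]
  mul_smul a b p := by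
    show (((a * b : Γ) : SL(2, ℝ)) * p.1, p.2) = ((a : SL(2, ℝ)) * ((b : SL(2, ℝ)) * p.1), p.2)
    rw [Subgroup.coe_mul, mul_assoc]

/-- the measure on frames and energies in the window (`= mP.restrict (univ ×ˢ Wi 2 R)`) -/
def mW (R : ℝ) : Measure (SL(2, ℝ) × ℝ) := mG.prod ((volume : Measure ℝ).restrict (Wi 2 R))

/-- the fundamental domain (the energies are cut off by the measure) -/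
def DW (F : Set ℍ) : Set (SL(2, ℝ) × ℝ) := dG F ×ˢ univ

/-- the distance of the base points -/
def dW (p q : SL(2, ℝ) × ℝ) : ℝ := dist (p.1 • I : ℍ) (q.1 • I)

/-- admissible parameters: `e3 ≪ z ≪ z1 ≪ z2 ≪ 1/m` (so `e2 = m e3 ≤ C^(-4)`) -/
structure Adm (C : ℝ) (A : Prm) : Prop where
  e3 : 0 < A.e3
  m : 1 ≤ A.m
  z : C * A.e3 ≤ A.z
  z1 : C * A.z ≤ A.z1
  z2 : C * A.z1 ≤ A.z2
  up : C * (A.m * A.z2) ≤ 1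
  tu : A.m * A.e3 ≤ 1 / 20

/-- eigenfunctions of the metric `e^(F') g`, `F'` close to `log U + f` in the sup norm -/
structure EgT (Γ : Subgroup SL(2, ℝ)) (U : ℍ → ℝ) (R : ℝ) (f : ℍ → ℝ) (F' : ℍ → ℝ) (μ : ℝ) (φ : ℍ → ℂ) : Prop where
  sm : Sm Γ (R ^ (1 / 100 : ℝ)) R f
  inv : QU.Inv Γ F'
  near : ∀ z, |F' z - (Real.log (U z) + f z)| ≤ R ^ (-3 : ℝ)
  mu0 : 0 < μ
  mu1 : |Real.sqrt μ - R| ≤ R ^ (-(1 / 100) : ℝ)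
  eig : CEig Γ F' μ φ

/-- **(I2) contraction** (`f = 0` is allowed) -/
def I2_stmt : Prop := ∀ (Γ : Subgroup SL(2, ℝ)) (ch : ℝ → ℝ), QU.SurfaceGroup Γ → CH ch → ∃ δ0 C : ℝ, 0 < δ0 ∧ 1 ≤ C ∧ ∀ (B : ℕ → ℝ) (A : Prm), Adm C A → ∃ d R0 : ℝ, 0 < d ∧ 1 ≤ R0 ∧
  ∀ (R : ℝ) (D : Dyn) (F : Set ℍ) (f : ℍ → ℝ), R0 ≤ R → OKD Γ δ0 B D → QU.NiceDom Γ F → Sm Γ (R ^ (1 / 100 : ℝ)) R f →
    ∀ T : Lp ℂ 2 ((mW R).restrict (DW F)) →L[ℂ] Lp ℂ 2 ((mW R).restrict (DW F)), IsOp ((mW R).restrict (DW F)) (perZ Γ (KB D ch A R f)) T → ‖T‖ ≤ 1 + R ^ (-d)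

/-- **(I3) the fixed vector**, and the norm (the lower bound holds for the smaller window `PW F 1 R`) -/
def I3_stmt : Prop := ∀ (Γ : Subgroup SL(2, ℝ)) (ch : ℝ → ℝ), QU.SurfaceGroup Γ → CH ch → ∃ δ0 C : ℝ, 0 < δ0 ∧ 1 ≤ C ∧ ∀ (B : ℕ → ℝ) (A : Prm), Adm C A → ∃ d R0 : ℝ, 0 < d ∧ 1 ≤ R0 ∧
  ∀ (R : ℝ) (D : Dyn) (F : Set ℍ) (f F' : ℍ → ℝ) (μ : ℝ) (φ : ℍ → ℂ), R0 ≤ R → OKD Γ δ0 B D → QU.NiceDom Γ F → EgT Γ D.U R f F' μ φ →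
    (∫⁻ p in DW F, ‖QF D.U ch A.z R φ p‖ₑ ^ 2 ∂mW R ≤ ENNReal.ofReal (nn F φ)) ∧ (ENNReal.ofReal ((1 - R ^ (-d)) * nn F φ) ≤ ∫⁻ p in PW F 1 R, ‖QF D.U ch A.z R φ p‖ₑ ^ 2 ∂mW R) ∧
    ∀ T : Lp ℂ 2 ((mW R).restrict (DW F)) →L[ℂ] Lp ℂ 2 ((mW R).restrict (DW F)), IsOp ((mW R).restrict (DW F)) (perZ Γ (KB D ch A R f)) T →
      ∀ Φ : Lp ℂ 2 ((mW R).restrict (DW F)), (Φ : SL(2, ℝ) × ℝ → ℂ) =ᵐ[(mW R).restrict (DW F)] QF D.U ch A.z R φ → ‖T Φ - Φ‖ ^ 2 ≤ R ^ (-d) * nn F φ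

/-- **(I4) the big step kernel** is bounded, measurable, invariant, of finite range and sub-Markov -/
def I4_stmt : Prop := ∀ (Γ : Subgroup SL(2, ℝ)) (ch : ℝ → ℝ), QU.SurfaceGroup Γ → CH ch → ∃ δ0 C : ℝ, 0 < δ0 ∧ 1 ≤ C ∧ ∀ (B : ℕ → ℝ) (A : Prm), Adm C A → ∃ d R0 : ℝ, 0 < d ∧ 1 ≤ R0 ∧
  ∀ (R : ℝ) (D : Dyn), R0 ≤ R → OKD Γ δ0 B D → KZ Γ dW (ub D ch A R) ∧ (∀ p q, ‖ub D ch A R p q‖ ≤ R ^ 3) ∧ (∀ p q, ub D ch A R p q ≠ 0 → dW p q ≤ 2 * A.tu R + 1) ∧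
    (∀ p q, ub D ch A R p q ≠ 0 → Reach D A R p q) ∧
    ∀ p, ∫⁻ q, ‖ub D ch A R p q‖ₑ ^ 2 ∂mW R ≤ ENNReal.ofReal ((1 + R ^ (-d)) * (R ^ 2 / (2 * Real.pi)))

/-- chains of `N` big steps with given inner vertices -/
def Ch (D : Dyn) (A : Prm) (R : ℝ) (N : ℕ) (w : ℕ → SL(2, ℝ) × ℝ) : Prop := ∀ j < N, Reach D A R (w j) (w (j + 1))

/-- **(I5) rigidity**: the volume of the chains with fixed end points -/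
def I5_stmt : Prop := ∀ (Γ : Subgroup SL(2, ℝ)), QU.SurfaceGroup Γ → ∃ δ0 C : ℝ, 0 < δ0 ∧ 1 ≤ C ∧ ∀ (B : ℕ → ℝ) (A : Prm) (N : ℕ), Adm C A → 1 ≤ N → ∃ R0 : ℝ, 1 ≤ R0 ∧
  ∀ (R : ℝ) (D : Dyn), R0 ≤ R → OKD Γ δ0 B D → ∀ p q : SL(2, ℝ) × ℝ,
    mZ (mW R) (N - 1) {v | Ch D A R N (vz p q v)} ≤ ENNReal.ofReal ((R ^ (-2 + C * A.z2)) ^ (N - 1))

/-- **(I6) jumps** of the big steps -/
def I6_stmt : Prop := ∀ (Γ : Subgroup SL(2, ℝ)), QU.SurfaceGroup Γ → ∃ δ0 C : ℝ, 0 < δ0 ∧ 1 ≤ C ∧ ∀ (B : ℕ → ℝ) (A : Prm), Adm C A → ∃ R0 : ℝ, 1 ≤ R0 ∧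
  ∀ (R : ℝ) (D : Dyn), R0 ≤ R → OKD Γ δ0 B D → ∀ p q : SL(2, ℝ) × ℝ, Reach D A R p q → Nb (R ^ (-(1 / 5) : ℝ)) (D.ph (A.tu R) p) q ∧ p.2 ∈ Wi 2 R ∧ q.2 ∈ Wi 2 R ∧ |p.2 - q.2| ≤ (A.m + 1) * A.r R

/-- iterates of `V ↦ ∫ M(x, y)² V(y) dy` -/
def qZ {Y : Type} [MeasurableSpace Y] (m : Measure Y) (M : Y → Y → ENNReal) : ℕ → (Y → ENNReal) → Y → ENNReal
  | 0, V => V
  | n + 1, V => fun x => ∫⁻ y, M x y ^ 2 * qZ m M n V y ∂m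

/-- test functions -/
structure TF (Γ : Subgroup SL(2, ℝ)) (h : ℍ → ℝ) : Prop where
  inv : QU.Inv Γ h
  bd : ∀ z, 0 ≤ h z ∧ h z ≤ 1
  lip : ∃ L : ℝ, ∀ z w, |h z - h w| ≤ L * dist z w

/-- curves in the unstable cone: `x = γ(v)⁻¹ γ(v')` has `x₁₀ ∈ [1/C1, C1] (v' - v)`, `|x₀₁| + |x₀₀ - x₁₁| ≤ x₁₀/10` for `v < v'` -/
structure UC (C1 : ℝ) (γ : ℝ → SL(2, ℝ)) : Prop where
  cont : ContinuousOn γ (Icc 0 1)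
  cone : ∀ v v' : ℝ, 0 ≤ v → v < v' → v' ≤ 1 → (v' - v) / C1 ≤ ((γ v)⁻¹ * γ v').1 1 0 ∧ ((γ v)⁻¹ * γ v').1 1 0 ≤ C1 * (v' - v) ∧
    |((γ v)⁻¹ * γ v').1 0 1| + |((γ v)⁻¹ * γ v').1 0 0 - ((γ v)⁻¹ * γ v').1 1 1| ≤ 1 / 10 * ((γ v)⁻¹ * γ v').1 1 0

/-- the uniform weak law at the time `T0` for the energies `|E| ≤ E0` -/
def UWL (D : Dyn) (F : Set ℍ) (h : ℍ → ℝ) (e v0 C1 T0 E0 : ℝ) : Prop := ∀ (E : ℝ) (γ : ℝ → SL(2, ℝ)), |E| ≤ E0 → UC C1 γ →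
  volume {v : ℝ | v ∈ Icc 0 1 ∧ e ≤ |avP D h T0 (γ v, E) - mean F h|} ≤ ENNReal.ofReal v0

/-- **(I7) large deviations** for the chain of big steps; `b` = number of big steps in one block -/
def I7_stmt : Prop := ∀ (Γ : Subgroup SL(2, ℝ)) (F : Set ℍ) (ch : ℝ → ℝ), QU.SurfaceGroup Γ → QU.NiceDom Γ F → CH ch → ∃ δ0 C : ℝ, 0 < δ0 ∧ 1 ≤ C ∧ ∀ (h : ℍ → ℝ) (e : ℝ), TF Γ h → 0 < e → ∃ v0 C1 : ℝ, 0 < v0 ∧ 1 ≤ C1 ∧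
  ∀ T0 E0 e2 : ℝ, 1 ≤ T0 → 0 < E0 → 0 < e2 → e2 ≤ 1 / 20 → ∃ th z0 : ℝ, 0 < th ∧ 0 < z0 ∧ ∀ (B : ℕ → ℝ) (A : Prm), Adm C A → A.m * A.e3 = e2 → A.z2 ≤ z0 → ∃ R0 : ℝ, 1 ≤ R0 ∧
    ∀ (R : ℝ) (D : Dyn) (b : ℕ), R0 ≤ R → OKD Γ δ0 B D → UWL D F h (e / 2) v0 C1 T0 E0 → 6 / 10 * Real.log R ≤ b * A.tu R → b * A.tu R ≤ 7 / 10 * Real.log R →
      ∀ p : SL(2, ℝ) × ℝ, p.2 ∈ Wi (5 / 4) R → qZ (mW R) (fun x y => ‖ub D ch A R x y‖ₑ) b ((BadP D F h e (A.tu R)).indicator (fun _ => 1)) p ≤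
        ENNReal.ofReal (R ^ (-th) * (R ^ 2 / (2 * Real.pi)) ^ b)

/-- **(I8) time averages** -/
def I8_stmt : Prop := ∀ (Γ : Subgroup SL(2, ℝ)) (ch : ℝ → ℝ), QU.SurfaceGroup Γ → CH ch → ∃ δ0 C : ℝ, 0 < δ0 ∧ 1 ≤ C ∧ ∀ (B : ℕ → ℝ) (A : Prm) (h : ℍ → ℝ), Adm C A → TF Γ h → ∃ d R0 : ℝ, 0 < d ∧ 1 ≤ R0 ∧
  ∀ (R : ℝ) (D : Dyn) (F : Set ℍ) (f F' : ℍ → ℝ) (μ : ℝ) (φ : ℍ → ℂ), R0 ≤ R → OKD Γ δ0 B D → QU.NiceDom Γ F → EgT Γ D.U R f F' μ φ →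
    |(∫ z in F, h z * ‖φ z‖ ^ 2) - ∫ p in DW F, avP D h (A.tu R) p * ‖QF D.U ch A.z R φ p‖ ^ 2 ∂mW R| ≤ R ^ (-d) * nn F φ

/-- **existence of the dynamics** (block FL) -/
def IDY_stmt : Prop := ∀ Γ : Subgroup SL(2, ℝ), QU.SurfaceGroup Γ → ∃ δ0 : ℝ, 0 < δ0 ∧ ∀ (B : ℕ → ℝ) (U : ℍ → ℝ), Pot Γ δ0 B U → ∃ D : Dyn, D.U = U ∧ OKD Γ δ0 B D

/-- **(UWL) the uniform weak law** (block 5): for the limit potential at all large times, and its stability under small changes of the potential -/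
def IUW_stmt : Prop := ∀ (Γ : Subgroup SL(2, ℝ)) (F : Set ℍ), QU.SurfaceGroup Γ → QU.NiceDom Γ F → ∃ δ0 : ℝ, 0 < δ0 ∧ ∀ C1 : ℝ, 1 ≤ C1 → ∀ (B : ℕ → ℝ) (D : Dyn) (h : ℍ → ℝ) (e v0 : ℝ), OKD Γ δ0 B D → TF Γ h → 0 < e → 0 < v0 →
  ∃ (T0 : ℕ) (E0 s : ℝ), 1 ≤ T0 ∧ 0 < E0 ∧ 0 < s ∧ ∀ D' : Dyn, OKD Γ δ0 B D' → (∀ (g : SL(2, ℝ)) (n : ℕ), n ≤ 1 → ‖iteratedFDeriv ℝ n (fun w => Ug D.U g w - Ug D'.U g w) 0‖ ≤ s) →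
    UWL D' F h e v0 C1 T0 E0

end

end Pool.Agent.VQ
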