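import Pool.Agent.helper13.VQ.VNS
import Pool.Agent.helper14.VQ.FNV
import Pool.Agent.helper15.VQ.KSZ
import Pool.Agent.helper15.VQ.PARV
import Pool.Agent.helper15.VQ.RSL
import Pool.Agent.helper15.VQ.SEV
import Pool.Agent.helper17.VQ.EDF
import Pool.Agent.helper17.VQ.VSY
import Pool.Agent.helper17.VQ.VYC
import Pool.Agent.helper18.VQ.LNV
import Pool.Agent.helper18.VQ.RLL
import Pool.Agent.helper18.VQ.VLP
import Pool.Agent.helper18.VQ.VUL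
import Pool.Agent.helper2.VQ.EDY
import Pool.Agent.helper2.VQ.EX1
import Pool.Agent.helper2.VQ.VYV
import Pool.Agent.helper21.VQ.VBO
import Pool.Agent.helper21.VQ.VOX
import Pool.Agent.helper21.VQ.VPR
import Pool.Agent.helper22.VQ.EDZ
import Pool.Agent.helper22.VQ.VHP
import Pool.Agent.helper23.VQ.DTN
import Pool.Agent.helper23.VQ.DTZ
import Pool.Agent.helper23.VQ.EXT
import Pool.Agent.helper23.VQ.I54
import Pool.Agent.helper23.VQ.KPZ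
import Pool.Agent.helper25.VQ.DB4
import Pool.Agent.helper25.VQ.EDI
import Pool.Agent.helper25.VQ.SA4
import Pool.Agent.helper25.VQ.WKZ
import Pool.Agent.helper26.VQ.RFF
import Pool.Agent.helper26.VQ.RUW
import Pool.Agent.helper26.VQ.VNV
import Pool.Agent.helper27.VQ.FLG
import Pool.Agent.helper27.VQ.TAN
import Pool.Agent.helper27.VQ.UKZ
import Pool.Agent.helper29.VQ.GL4
import Pool.Agent.helper29.VQ.VAW
import Pool.Agent.helper29.VQ.VYB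
import Pool.Agent.helper3.VQ.FST
import Pool.Agent.helper30.VQ.VIS
import Pool.Agent.helper30.VQ.VTS
import Pool.Agent.helper31.VQ.FX4
import Pool.Agent.helper31.VQ.VGD
import Pool.Agent.helper33.VQ.CA4
import Pool.Agent.helper33.VQ.CEZ
import Pool.Agent.helper33.VQ.EAI
import Pool.Agent.helper33.VQ.FAMV
import Pool.Agent.helper33.VQ.I64
import Pool.Agent.helper34.VQ.RLC
import Pool.Agent.helper34.VQ.VRM
import Pool.Agent.helper36.VQ.FLD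
import Pool.Agent.helper36.VQ.RWI
import Pool.Agent.helper36.VQ.VEL
import Pool.Agent.helper38.VQ.BC2
import Pool.Agent.helper38.VQ.EDC
import Pool.Agent.helper39.VQ.CKZ
import Pool.Agent.helper39.VQ.VI4
import Pool.Agent.helper39.VQ.VLE
import Pool.Agent.helper39.VQ.VYA
import Pool.Agent.helper40.VQ.EDA
import Pool.Agent.helper40.VQ.RE4
import Pool.Agent.helper40.VQ.VCD
import Pool.Agent.helper40.VQ.VXZ
import Pool.Agent.helper41.VQ.VDM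
import Pool.Agent.helper43.VQ.PD4
import Pool.Agent.helper43.VQ.QFM
import Pool.Agent.helper43.VQ.SH4
import Pool.Agent.helper43.VQ.VAM
import Pool.Agent.helper44.VQ.SD4
import Pool.Agent.helper44.VQ.VFB
import Pool.Agent.helper44.VQ.VQA
import Pool.Agent.helper47.VQ.FLC
import Pool.Agent.helper47.VQ.IDG
import Pool.Agent.helper47.VQ.IDY
import Pool.Agent.helper47.VQ.VFS
import Pool.Agent.helper48.VQ.RND
import Pool.Agent.helper48.VQ.VFM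
import Pool.Agent.helper48.VQ.VI9
import Pool.Agent.helper51.VQ.DTV
import Pool.Agent.helper53.VQ.ED3
import Pool.Agent.helper53.VQ.POT
import Pool.Agent.helper53.VQ.VFR
import Pool.Agent.helper54.VQ.CNTV
import Pool.Agent.helper54.VQ.VI2
import Pool.Agent.helper55.VQ.ED1
import Pool.Agent.helper55.VQ.ED8
import Pool.Agent.helper55.VQ.EDG
import Pool.Agent.helper55.VQ.EDH
import Pool.Agent.helper55.VQ.EDL
import Pool.Agent.helper55.VQ.EDT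
import Pool.Agent.helper55.VQ.EDV
import Pool.Agent.helper58.VQ.PSC
import Pool.Agent.helper58.VQ.VOV
import Pool.Agent.helper58.VQ.VPL
import Pool.Agent.helper59.VQ.CU4
import Pool.Agent.helper59.VQ.OWZ
import Pool.Agent.helper59.VQ.PGV
import Pool.Agent.helper59.VQ.RIA
import Pool.Agent.helper59.VQ.RIB
import Pool.Agent.helper59.VQ.VEG
import Pool.Agent.helper59.VQ.VQF
import Pool.Agent.helper61.VQ.CNV
import Pool.Agent.helper61.VQ.DM4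
import Pool.Agent.helper63.VQ.BC1
import Pool.Agent.helper63.VQ.VMA
import Pool.Agent.helper65.VQ.EDD
import Pool.Agent.helper65.VQ.EHZ
import Pool.Agent.helper65.VQ.PIZ
import Pool.Agent.helper65.VQ.VPB
import Pool.Agent.helper65.VQ.VPE
import Pool.Agent.helper66.VQ.VYU
import Pool.Agent.helper67.VQ.AR4
import Pool.Agent.helper67.VQ.MFV
import Pool.Agent.helper67.VQ.VPO
import Pool.Agent.helper67.VQ.VQS
import Pool.Agent.helper67.VQ.YPE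
import Pool.Agent.helper68.VQ.SAE
import Pool.Agent.helper68.VQ.VTN
import Pool.Agent.helper69.VQ.MKZ
import Pool.Agent.helper69.VQ.VUS
import Pool.Agent.helper7.VQ.LDT
import Pool.Agent.helper7.VQ.LMP
import Pool.Agent.helper7.VQ.LVP
import Pool.Agent.helper71.VQ.RGF
import Pool.Agent.helper71.VQ.RMS
import Pool.Agent.helper71.VQ.RVA
import Pool.Agent.helper72.VQ.VAD
import Pool.Agent.helper72.VQ.VNP
import Pool.Agent.helper73.VQ.VDG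
import Pool.Agent.helper73.VQ.VDN
import Pool.Agent.helper73.VQ.VR3
import Pool.Agent.helper73.VQ.VSH
import Pool.Agent.helper73.VQ.VUB
import Pool.Agent.helper73.VQ.VUG
import Pool.Agent.helper75.VQ.PIV
import Pool.Agent.helper75.VQ.PRV
import Pool.Agent.helper76.VQ.FLA
import Pool.Agent.helper76.VQ.FLU
import Pool.Agent.helper76.VQ.GIV
import Pool.Agent.helper76.VQ.LPZ
import Pool.Agent.helper76.VQ.NCV
import Pool.Agent.helper76.VQ.PCL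
import Pool.Agent.helper76.VQ.WEZ
import Pool.Agent.helper77.VQ.GR4
import Pool.Agent.helper77.VQ.LNP
import Pool.Agent.helper77.VQ.PO4
import Pool.Agent.helper77.VQ.SP4
import Pool.Agent.helper78.VQ.SB4
import Pool.Agent.helper78.VQ.VEN
import Pool.Agent.helper79.VQ.EDS
import Pool.Agent.helper80.VQ.FCV
import Pool.Agent.helper80.VQ.GRW
import Pool.Agent.helper80.VQ.HFB
import Pool.Agent.helper80.VQ.HFM
import Pool.Agent.helper80.VQ.MPG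
import Pool.Agent.helper80.VQ.RCD
import Pool.Agent.helper80.VQ.TRZ
import Pool.Agent.helper83.VQ.WXU
import Pool.Agent.helper84.VQ.BX4
import Pool.Agent.helper84.VQ.DI4
import Pool.Agent.helper85.VQ.RSB
import Pool.Agent.helper87.VQ.FFL
import Pool.Agent.helper87.VQ.HFG
import Pool.Agent.helper87.VQ.VGR
import Pool.Agent.helper89.VQ.CH4
import Pool.Agent.helper89.VQ.HAC
import Pool.Agent.helper89.VQ.MSZ
import Pool.Agent.helper89.VQ.MTV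
import Pool.Agent.helper89.VQ.VCM
import Pool.Agent.helper89.VQ.VSA
import Pool.Agent.helper9.VQ.RI7
import Pool.Agent.helper9.VQ.VCT
import Pool.Agent.helper9.VQ.VD0
import Pool.Agent.helper90.VQ.FE4
import Pool.Agent.helper90.VQ.RJT
import Pool.Agent.helper91.VQ.EDW
import Pool.Agent.helper91.VQ.GFL
import Pool.Agent.helper91.VQ.VTA
import Pool.Agent.helper92.VQ.EDM
import Pool.Agent.helper92.VQ.UNZ
import Pool.Agent.helper92.VQ.VDV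
import Pool.Agent.helper92.VQ.VUM
import Pool.Agent.helper94.VQ.RDR
import Pool.Agent.helper94.VQ.RPI
import Pool.Agent.helper94.VQ.RTW
import Pool.Agent.helper95.VQ.VFD
import Pool.Agent.helper96.VQ.DA4
import Pool.Agent.helper96.VQ.ROT
import Pool.Agent.helper96.VQ.TLV
import Pool.Agent.helper97.VQ.VBR
import Pool.Agent.helper62.VQE.All
import Pool.Agent.helper11.RPQ.AllI

/-!
# MP_07c750_an, project VQ: assembly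
-/

set_option autoImplicit false

open scoped MatrixGroups ContDiff Topology UpperHalfPlane ComplexConjugate
open UpperHalfPlane MeasureTheory Filter Set

namespace Pool.Agent.AllV

open Pool.Agent

theorem A_VCD : VQ.VCD_stmt := VQ.VCD_proof 
theorem A_VTA : VQ.VTA_stmt := VQ.VTA_proof 
theorem A_VNS : VQ.VNS_stmt := VQ.VNS_proof 
theorem A_VSY : VQ.VSY_stmt := VQ.VSY_proof 
theorem A_VCM : VQ.VCM_stmt := VQ.VCM_proof A_VCD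
theorem A_VOV : VQ.VOV_stmt := VQ.VOV_proof A_VTA A_VNS A_VSY A_VCM A_VCD
theorem A_VUB : VQ.VUB_stmt := VQ.VUB_proof A_VCD
theorem A_VYA : VQ.VYA_stmt := VQ.VYA_proof A_VUB
theorem A_VYB : VQ.VYB_stmt := VQ.VYB_proof A_VYA A_VUB
theorem A_VCT : VQ.VCT_stmt := VQ.VCT_proof 
theorem A_VBR : VQ.VBR_stmt := VQ.VBR_proof A_VCD A_VCM
theorem A_VPB : VQ.VPB_stmt := VQ.VPB_proof A_VYB A_VSY A_VCT A_VBR
theorem A_VDN : VQ.VDN_stmt := VQ.VDN_proof A_VCD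
theorem A_VLP : VQ.VLP_stmt := VQ.VLP_proof A_VCD
theorem A_VDV : VQ.VDV_stmt := VQ.VDV_proof 
theorem A_VRM : VQ.VRM_stmt := VQ.VRM_proof A_VYA A_VDN A_VUB A_VLP A_VDV
theorem A_VR3 : VQ.VR3_stmt := VQ.VR3_proof A_VCD A_VUB A_VYA A_VYB
theorem A_VPE : VQ.VPE_stmt := VQ.VPE_proof A_VRM A_VR3 A_VYB A_VUB A_VSY A_VCT A_VBR
theorem A_EX1 : VQ.EX1_stmt := VQ.EX1_proof A_VCD
theorem A_VUG : VQ.VUG_stmt := VQ.VUG_proof A_VCD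
theorem A_EXT : VQ.EXT_stmt := VQ.EXT_proof A_EX1 A_VUG
theorem A_GFL : VQ.GFL_stmt := VQ.GFL_proof 
theorem A_FX4 : VQ.FX4_stmt := VQ.FX4_proof A_GFL
theorem A_FLU : VQ.FLU_stmt := VQ.FLU_proof A_EXT A_FX4
theorem A_ROT : VQ.ROT_stmt := VQ.ROT_proof A_VCD
theorem A_FLA : VQ.FLA_stmt := VQ.FLA_proof A_FLU A_ROT A_VUG
theorem A_FLD : VQ.FLD_stmt := VQ.FLD_proof A_VUG
theorem A_PGV : VQ.PGV_stmt := VQ.PGV_proof 
theorem A_HFB : VQ.HFA_stmt ∧ VQ.FLB_stmt := VQ.HFB_proof A_FLA A_FLD A_PGV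
theorem A_VPR : VQ.VPR_stmt := VQ.VPR_proof A_VRM A_VUB A_VYA A_HFB.1
theorem A_VFM : VQ.VFM_stmt := VQ.VFM_proof A_VPB A_VPE A_VPR A_VUB
theorem A_VUL : VQ.VUL_stmt := VQ.VUL_proof A_VCD A_VOV A_VFM A_VUB
theorem A_VGR : VQ.VGR_stmt := VQ.VGR_proof 
theorem A_VEN : VQ.VEN_stmt := VQ.VEN_proof A_VGR
theorem A_VDM : VQ.VDM_stmt := VQ.VDM_proof 
theorem A_VFD : VQ.VFD_stmt := VQ.VFD_proof A_VPR A_VRM A_HFB.1 A_VCD A_VDM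
theorem A_VBO : VQ.VBO_stmt := VQ.VBO_proof 
theorem A_LDT : VQ.LDT_stmt := VQ.LDT_proof 
theorem A_LVP : VQ.LVP_stmt := VQ.LVP_proof A_LDT
theorem A_VDG : VQ.VDG_stmt := VQ.VDG_proof A_VCD
theorem A_TAN : VQ.TAN_stmt := VQ.TAN_proof A_VDG
theorem A_TRZ : VQ.TRZ_stmt := VQ.TRZ_proof A_TAN
theorem A_LMP : VQ.LMP_stmt := VQ.LMP_proof 
theorem A_HAC : VQ.HAC_stmt := VQ.HAC_proof A_LMP
theorem A_MPG : VQ.MPG_stmt := VQ.MPG_proof A_FLU A_FLA A_LVP A_TRZ A_LMP A_HAC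
theorem A_HFM : VQ.HFM_stmt := VQ.HFM_proof A_MPG A_PGV
theorem A_VNV : VQ.VNV_stmt := VQ.VNV_proof A_VBO A_VCD A_VUB A_HFM
theorem A_VFS : VQ.VFS_stmt := VQ.VFS_proof A_VOV A_VNV A_VUB
theorem A_VFR : VQ.VFR_stmt := VQ.VFR_proof A_VCD A_VDM A_HFB.1
theorem A_VSH : VQ.VSH_stmt := VQ.VSH_proof 
theorem A_VFB : VQ.VFB_stmt := VQ.VFB_proof A_VFS A_VFR A_VSH A_VDM
theorem A_VD0 : VQ.VD0_stmt := VQ.VD0_proof A_VCT A_VBR A_VYB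
theorem A_VQF : VQ.VQF_stmt := VQ.VQF_proof A_VCD A_VCM
theorem A_VPL : VQ.VPL_stmt := VQ.VPL_proof 
theorem A_VPO : VQ.VPO_stmt := VQ.VPO_proof 
theorem A_VQS : VQ.VQS_stmt := VQ.VQS_proof A_VCD A_VBR A_VDM
theorem A_VIS : VQ.VIS_stmt := VQ.VIS_proof A_VCD A_VQF A_VPL A_VPO A_VBR A_VCM A_VDM A_VQS
theorem A_VQA : VQ.VQA_stmt := VQ.VQA_proof A_VIS A_VQS
theorem A_VSA : VQ.VSA_stmt := VQ.VSA_proof A_VEN A_VFD A_VFB A_VFM A_VFR A_VD0 A_VQA A_VUB A_VDM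
theorem A_VUM : VQ.VUM_stmt := VQ.VUM_proof A_VPR A_VQS A_VBO A_VUL A_HFB.1 A_VDM A_VUB
theorem A_VTS : VQ.VTS_stmt := VQ.VTS_proof A_VUL A_VSA A_VQA A_VUM A_VSH A_VNV A_VFM A_VFR A_VQS A_VDM A_VUB A_HFB.1
theorem A_VTN : VQ.VTN_stmt := VQ.VTN_proof A_VTS A_VUM A_HFB.1
theorem A_KPZ : VQ.KPZ_stmt := VQ.KPZ_proof 
theorem A_PSC : VQ.PSC_stmt := VQ.PSC_proof RPQ.A_INJ RS.A_GLC RS.A_GMG RS.A_GLI QU.A_DOB
theorem A_VI2 : VQ.VI2_stmt := VQ.VI2_proof A_VTN A_KPZ A_PSC RS.A_GMG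
theorem A_EDH : VQ.EDH_stmt := VQ.EDH_proof 
theorem A_VEG : VQ.VEG_stmt := VQ.VEG_proof A_VCD A_VQF A_VPL A_VPO A_VLP A_VBR
theorem A_VGD : VQ.VGD_stmt := VQ.VGD_proof A_VLP
theorem A_VEL : VQ.VEL_stmt := VQ.VEL_proof A_VEG A_VGD A_VQS A_VCD A_VLP
theorem A_EDW : VQ.EDW_stmt := VQ.EDW_proof A_EDH A_VIS A_VEL A_VQA A_VQS A_VUB
theorem A_EDD : VQ.EDD_stmt := VQ.EDD_proof A_VRM A_VPR A_VCD A_HFB.1
theorem A_EDA : VQ.EDA_stmt := VQ.EDA_proof A_VSH A_VDM A_VFM A_VFR A_HFM A_VCM A_VCD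
theorem A_EDF : VQ.EDF_stmt := VQ.EDF_proof A_EDA A_VFM A_VFR A_VCD
theorem A_EDL : VQ.EDL_stmt := VQ.EDL_proof A_VUB A_VCD
theorem A_EDT : VQ.EDT_stmt := VQ.EDT_proof A_EDD A_EDF A_EDH A_EDL A_VSA A_VFB A_VFM A_VD0 A_VFR A_VUB A_HFB.1
theorem A_ED1 : VQ.ED1_stmt := VQ.ED1_proof A_VTS A_EDW A_EDT A_EDH A_VSA A_VQA A_VQS A_VFM A_VFR A_VUB A_VUM A_VTN
theorem A_VUS : VQ.VUS_stmt := VQ.VUS_proof A_VUL A_VNV
theorem A_EDC : VQ.EDC_stmt := VQ.EDC_proof A_VUS A_VUM A_VSH A_VDM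
theorem A_VQE_PZE : VQE.PZE_stmt := Pool.Agent.VQE.PZE_proof 
theorem A_VQE_PZC : VQE.PZC_stmt := Pool.Agent.VQE.PZC_proof 
theorem A_LPZ : VQ.LPZ_stmt := VQ.LPZ_proof A_VUG A_VQE_PZE A_VQE_PZC
theorem A_GRW : VQ.GRW_stmt := VQ.GRW_proof A_LPZ A_VUG
theorem A_HFG : VQ.HFG_stmt := VQ.HFG_proof A_GRW A_FLA A_PGV
theorem A_EDG : VQ.EDG_stmt := VQ.EDG_proof A_HFG A_VBO
theorem A_EDY : VQ.EDY_stmt := VQ.EDY_proof A_EDG A_EDL A_HFB.1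
theorem A_EDM : VQ.EDM_stmt := VQ.EDM_proof A_ED1 A_EDC A_EDY A_EDW A_VTS A_VTN A_VUM A_VDM
theorem A_EDZ : VQ.EDZ_stmt := VQ.EDZ_proof A_KPZ A_PSC RS.A_GMG
theorem A_ED3 : VQ.ED3_stmt := VQ.ED3_proof A_EDM A_EDW A_EDZ A_VTN A_VUM A_VDM
theorem A_VNP : VQ.VNP_stmt := VQ.VNP_proof A_VCD A_VCM A_VBR A_VYA
theorem A_VOX : VQ.VOX_stmt := VQ.VOX_proof 
theorem A_VMA : VQ.VMA_stmt := VQ.VMA_proof A_VNP A_VQA A_VQS A_VTN A_VUM A_VOX A_VUS A_VUL A_VUB A_VDM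
theorem A_VI4 : VQ.VI4_stmt := VQ.VI4_proof A_VUM A_VMA
theorem A_EAI : VQ.EAI_stmt := VQ.EAI_proof 
theorem A_EDI : VQ.EDI_stmt := VQ.EDI_proof A_EAI A_ED1 A_EDC A_EDW A_VTS A_VTN A_VUM
theorem A_EDS : VQ.EDS_stmt := VQ.EDS_proof A_EDT A_EDF A_EDW A_EDH A_VSA A_VFR A_VFM A_VUB A_HFB.1
theorem A_EDV : VQ.EDV_stmt := VQ.EDV_proof A_EDI A_EDS A_EDG A_EDW A_HFB.1 A_VTN A_VUB
theorem A_ED8 : VQ.ED8_stmt := VQ.ED8_proof A_EDV A_EDZ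
theorem A_DTZ : VQ.DTZ_stmt := VQ.DTZ_proof RPQ.A_WRD
theorem A_KSZ : VQ.KSZ_stmt := VQ.KSZ_proof A_KPZ
theorem A_OWZ : VQ.OWZ_stmt := VQ.OWZ_proof RPQ.A_KO1 RPQ.A_KO2 A_KPZ A_KSZ
theorem A_MTV : VQ.MTV_stmt := VQ.MTV_proof A_HFB.2
theorem A_QFM : VQ.QFM_stmt := VQ.QFM_proof 
theorem A_DTV : VQ.DTV_stmt := VQ.DTV_proof A_VI2 A_ED3 A_VI4 A_ED8 A_DTZ A_OWZ A_KSZ A_KPZ A_PSC A_MTV A_QFM RPQ.A_KO1 RPQ.A_KO2 RS.A_GFD
theorem A_FE4 : VQ.FE4_stmt := VQ.FE4_proof A_HFB.2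
theorem A_SH4 : VQ.SH4_stmt := VQ.SH4_proof 
theorem A_PD4 : VQ.PD4_stmt := VQ.PD4_proof 
theorem A_GR4 : VQ.GR4_stmt := VQ.GR4_proof A_PD4
theorem A_SA4 : VQ.SA4_stmt := VQ.SA4_proof A_PD4 A_GR4
theorem A_SB4 : VQ.SB4_stmt := VQ.SB4_proof A_SH4
theorem A_SP4 : VQ.SP4_stmt := VQ.SP4_proof A_GR4 A_SA4 A_SB4
theorem A_RE4 : VQ.RE4_stmt := VQ.RE4_proof A_SP4
theorem A_GL4 : VQ.GL4_stmt := VQ.GL4_proof A_PD4
theorem A_DI4 : VQ.DI4_stmt := VQ.DI4_proof A_SH4 A_RE4 A_GL4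
theorem A_CA4 : VQ.CA4_stmt := VQ.CA4_proof 
theorem A_PO4 : VQ.PO4_stmt := VQ.PO4_proof A_CA4
theorem A_CH4 : VQ.CH4_stmt := VQ.CH4_proof A_CA4 A_PO4
theorem A_AR4 : VQ.AR4_stmt := VQ.AR4_proof 
theorem A_BX4 : VQ.BX4_stmt := VQ.BX4_proof 
theorem A_I54 : VQ.I5_stmt := VQ.I54_proof A_FE4 A_DI4 A_CH4 A_AR4 A_BX4
theorem A_I64 : VQ.I6_stmt := VQ.I64_proof A_FE4 A_GR4 A_AR4
theorem A_FCV : VQ.FCV_stmt := VQ.FCV_proof A_TAN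
theorem A_FLC : VQ.FLC_stmt := VQ.FLC_proof A_FLU A_FCV
theorem A_RCD : VQ.RCD_stmt := VQ.RCD_proof A_FLC A_PGV
theorem A_RFF : VQ.RFF_stmt := VQ.RFF_proof A_FE4 A_VUB A_RCD
theorem A_RSL : VQ.RSL_stmt := VQ.RSL_proof 
theorem A_RTW : VQ.RTW_stmt := VQ.RTW_proof 
theorem A_RDR : VQ.RDR_stmt := VQ.RDR_proof 
theorem A_RGF : VQ.RGF_stmt := VQ.RGF_proof A_RSL A_RTW A_RDR
theorem A_RPI : VQ.RPI_stmt := VQ.RPI_proof 
theorem A_RLC : VQ.RLC_stmt := VQ.RLC_proof A_RGF A_RPI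
theorem A_RUW : VQ.RUW_stmt := VQ.RUW_proof A_RDR
theorem A_RJT : VQ.RJT_stmt := VQ.RJT_proof 
theorem A_RVA : VQ.RVA_stmt := VQ.RVA_proof A_RGF A_RDR A_RJT
theorem A_RWI : VQ.RWI_stmt := VQ.RWI_proof 
theorem A_RLL : VQ.RLL_stmt := VQ.RLL_proof A_RFF A_RLC A_RUW A_RVA A_RWI
theorem A_VYC : VQ.VYC_stmt := VQ.VYC_proof A_VYA A_VUB
theorem A_VYV : VQ.VYV_stmt := VQ.VYV_proof A_VDN A_VUB
theorem A_VYU : VQ.VYU_stmt := VQ.VYU_proof A_VYC A_VYV A_VUB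
theorem A_CU4 : VQ.CU4_stmt := VQ.CU4_proof A_RFF A_RJT A_RGF A_RSL A_RDR A_VYU
theorem A_DA4 : VQ.DA4_stmt := VQ.DA4_proof Pool.Agent.VQE.HAL_proof
theorem A_DB4 : VQ.DB4_stmt := VQ.DB4_proof A_DA4
theorem A_SD4 : VQ.SD4_stmt := VQ.SD4_proof A_FE4 A_DI4 A_PO4 A_AR4
theorem A_VLE : VQ.VLE_stmt := VQ.VLE_proof A_VPB A_VLP A_VUB
theorem A_VAW : VQ.VAW_stmt := VQ.VAW_proof A_VEN A_VFD A_VFB A_VFM A_VD0 A_VQA A_VEL A_VLE A_VNP A_VOX A_VRM A_VPR A_VCD A_VUB A_VQS A_VFR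
theorem A_VAD : VQ.VAD_stmt := VQ.VAD_proof A_VAW A_VUL A_VNP A_VD0 A_VFM A_VNV A_VUM A_VFR A_VOX A_VQS A_VUB A_VDM
theorem A_VAM : VQ.VAM_stmt := VQ.VAM_proof A_VAD A_VUS A_VUM A_VUL A_VD0 A_VNP A_VFM A_VUB A_VOX A_VQS A_VFR
theorem A_VI9 : VQ.VI9_stmt := VQ.VI9_proof A_VAM A_VYA A_VYB A_VUM
theorem A_DM4 : VQ.DOM_stmt := VQ.DM4_proof A_CU4 A_DB4 A_SD4 A_VI9 A_VI4
theorem A_RMS : VQ.RMS_stmt := VQ.RMS_proof A_MTV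
theorem A_RIA : VQ.RIA_stmt := VQ.RIA_proof A_DM4 A_RMS A_SD4 A_VI4
theorem A_RIB : VQ.RIB_stmt := VQ.RIB_proof A_RFF A_RGF A_RJT A_RMS
theorem A_RI7 : VQ.RI7_stmt := VQ.RI7_proof A_RLL A_RIA A_RIB A_RMS A_RJT A_RGF A_RFF
theorem A_FST : VQ.FST_stmt := VQ.FST_proof 
theorem A_PIV : VQ.PIV_stmt := VQ.PIV_proof A_FST A_HFB.2 RPQ.A_TPT RPQ.A_INJ
theorem A_FLG : VQ.FLG_stmt := VQ.FLG_proof A_GRW A_PGV
theorem A_CNV : VQ.CNV_stmt := VQ.CNV_proof A_HFB.2 A_FLG A_FST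
theorem A_CNTV : VQ.CNTV_stmt := VQ.CNTV_proof A_PIV A_CNV A_HFB.2 RPQ.A_INJ RS.A_GLC
theorem A_PARV : VQ.PARV_stmt := VQ.PARV_proof 
theorem A_VHP : VQ.VHP_stmt := VQ.VHP_proof A_VI4 A_I54 A_I64 A_RI7 A_CNTV A_PARV
theorem A_VXZ : VQ.VXZ_stmt := VQ.VXZ_proof 
theorem A_UKZ : VQ.UKZ_stmt := VQ.UKZ_proof A_VXZ A_KPZ
theorem A_CKZ : VQ.CKZ_stmt := VQ.CKZ_proof A_UKZ
theorem A_MKZ : VQ.MKZ_stmt := VQ.MKZ_proof 
theorem A_WKZ : VQ.WKZ_stmt := VQ.WKZ_proof A_CKZ A_UKZ A_MKZ A_VXZ A_KSZ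
theorem A_PIZ : VQ.PIZ_stmt := VQ.PIZ_proof A_WKZ
theorem A_EHZ : VQ.EHZ_stmt := VQ.EHZ_proof A_PIZ RPQ.A_QMB RPQ.A_SNC
theorem A_UNZ : VQ.UNZ_stmt := VQ.UNZ_proof A_VXZ
theorem A_CEZ : VQ.CEZ_stmt := VQ.CEZ_proof A_UNZ
theorem A_WEZ : VQ.WEZ_stmt := VQ.WEZ_proof A_CEZ A_UNZ A_VXZ
theorem A_MSZ : VQ.MSZ_stmt := VQ.MSZ_proof A_UNZ A_WEZ
theorem A_WXU : VQ.WXU_stmt := VQ.WXU_proof A_EHZ A_MSZ A_PSC A_MTV A_KSZ A_VXZ RPQ.A_GRW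
theorem A_PRV : VQ.PRV_stmt := VQ.PRV_proof A_DTV A_VHP A_WXU A_PIZ A_PSC A_MTV A_KSZ RPQ.A_SNC RPQ.A_CKB RPQ.A_LIP
theorem A_LNP : VQ.LNP_stmt := VQ.LNP_proof 
theorem A_YPE : VQ.YPE_stmt := VQ.YPE_proof A_LNP
theorem A_DTN : VQ.DTN_stmt := VQ.DTN_proof 
theorem A_SAE : VQ.SAE_stmt := VQ.SAE_proof 
theorem A_IDG : VQ.IDG_stmt := VQ.IDG_proof A_EXT A_FX4 A_YPE A_DTN A_SAE A_VUG
theorem A_IDY : VQ.IDY_stmt := VQ.IDY_proof A_IDG A_PGV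
theorem A_POT : VQ.POT_stmt := VQ.POT_proof 
theorem A_SEV : VQ.SEV_stmt := VQ.SEV_proof RPQ.A_SER RPQ.A_LIP
theorem A_TLV : VQ.TLV_stmt := VQ.TLV_proof RPQ.A_LIP
theorem A_GIV : VQ.GIV_stmt := VQ.GIV_proof 
theorem A_RND : VQ.RND_stmt := VQ.RND_proof 
theorem A_RSB : VQ.RSB_stmt := VQ.RSB_proof RPQ.A_RSM
theorem A_BC1 : VQ.BC1_stmt := VQ.BC1_proof A_PRV A_IDY A_POT A_SEV A_TLV A_GIV A_RND A_RSB
theorem A_FFL : VQE.FFL_stmt := VQ.FFL_proof A_FLA A_MPG A_PGV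
theorem A_IUW : VQ.IUW_stmt := Pool.Agent.VQE.IUW_of_FFL A_FFL
theorem A_PCL : VQ.PCL_stmt := VQ.PCL_proof 
theorem A_BC2 : VQ.BC2_stmt := VQ.BC2_proof A_BC1 A_IDY A_IUW A_SEV A_PCL RPQ.A_RSM
theorem A_FAMV : VQ.FAMV_stmt := VQ.FAMV_proof RPQ.A_BMP RPQ.A_CKB
theorem A_LNV : VQ.LNV_stmt := VQ.LNV_proof 
theorem A_MFV : VQ.MFV_stmt := VQ.MFV_proof 
theorem A_FNV : VQ.FNV_stmt := VQ.FNV_proof A_BC2 A_FAMV A_SEV A_LNV A_MFV RPQ.A_LIP RPQ.A_RSM RPQ.A_MOM QU.A_DOM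
theorem A_NCV : VQ.NCV_stmt := VQ.NCV_proof 

end Pool.Agent.AllV
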