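import Pool.Agent.helper11.VQ.Spec3c

/-!
# MP_07c750_an, project VQ: the final statement for an arbitrary fundamental domain, with the sign of the curvature
-/

set_option autoImplicit false

open scoped MatrixGroups ContDiff Topology UpperHalfPlane ComplexConjugate
open UpperHalfPlane MeasureTheory Filter Set

namespace Pool.Agent.VQ

open Pool.Agent.RS
open Pool.Agent.RPQ (CEig UN PN CkB Eqd)

theorem FNW_onC_add (f g : ℍ → ℝ) (T : SL(2, ℝ)) : QU.onC (fun z : ℍ => f (T • z) + g (T • z)) =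
    QU.onC (fun z : ℍ => f (T • z)) + QU.onC (fun z : ℍ => g (T • z)) := rfl

theorem FNW_cda (f : ℍ → ℝ) (hf : QU.CD ∞ f) (hs : ∀ T : SL(2, ℝ), QU.CD ∞ (fun z : ℍ => f (T • z))) (T : SL(2, ℝ)) (n : ℕ) :
    ContDiffAt ℝ n (QU.onC (fun z : ℍ => f (T • z))) (I : ℂ) := by
  have h1 := hs T
  have h2 : ContDiffAt ℝ ∞ (QU.onC (fun z : ℍ => f (T • z))) (I : ℂ) := by
    refine h1.contDiffAt ?_
    exact (isOpen_lt continuous_const Complex.continuous_im).mem_nhds (by simp)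
  exact h2.of_le (by exact_mod_cast le_top)

/-- **the final theorem** for an arbitrary fundamental domain -/
theorem FNW (hFNV : FNV_stmt) (hNCV : NCV_stmt) (hDOM : QU.DOM_stmt) (hDOB : QU.DOB_stmt) (hcomp : ∀ (f : ℍ → ℝ) (T : SL(2, ℝ)), QU.CD ∞ f → QU.CD ∞ (fun z : ℍ => f (T • z)))
    (Γ : Subgroup SL(2, ℝ)) (F : Set ℍ) (hΓ : QU.SurfaceGroup Γ) (hF : IsFundamentalDomain Γ F (volume : Measure ℍ)) :
    ∃ (η : ℝ) (k₀ : ℕ) (J : ℕ → ℕ) (u : ℕ → ℕ → ℍ → ℝ), 0 < η ∧ (∀ k, k₀ ≤ k → 1 ≤ J k) ∧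
      (∀ k j, QU.CD ∞ (u k j) ∧ QU.Inv Γ (u k j) ∧ ∀ z, 0 ≤ u k j z) ∧
      (∀ n : ℕ, ∃ c : ℕ → ℝ, Summable c ∧ ∀ (k : ℕ) (ξ : ℕ → ℝ), (∀ j, |ξ j| ≤ 1) →
        CkB n (fun z => ∑ j ∈ Finset.range (J k), ξ j * u k j z) (c k)) ∧
      (∀ ξ : ℕ × ℕ → ℝ, (∀ q, |ξ q| ≤ 1) → QU.CD ∞ (fun z => ∑' k, ∑ j ∈ Finset.range (J k), ξ (k, j) * u k j z) ∧
        ∀ n ≤ 3, CkB n (fun z => ∑' k, ∑ j ∈ Finset.range (J k), ξ (k, j) * u k j z) η) ∧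
      ∀ f₀ : ℍ → ℝ, QU.CD ∞ f₀ → QU.Inv Γ f₀ → (∀ n ≤ 3, CkB n f₀ η) →
        (∀ ξ : ℕ × ℕ → ℝ, (∀ q, |ξ q| ≤ 1) → ∀ z, -1 + QU.lap (fun z => f₀ z + ∑' k, ∑ j ∈ Finset.range (J k), ξ (k, j) * u k j z) z / 2 < 0) ∧
        ∀ᵐ ξ ∂(Measure.infinitePi fun _ : ℕ × ℕ => UN), ∀ ε : ℝ, 0 < ε → ∃ r₀ : ℝ, 0 < r₀ ∧ ∀ (μ : ℝ) (φ : ℍ → ℂ), r₀ ≤ μ →
          CEig Γ (fun z => f₀ z + ∑' k, ∑ j ∈ Finset.range (J k), ξ (k, j) * u k j z) μ φ →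
            ∀ h : ℍ → ℝ, QU.Inv Γ h → (∀ z w, |h z - h w| ≤ dist z w) →
              |(∫ z in F, h z * ‖φ z‖ ^ 2 * Real.exp (f₀ z + ∑' k, ∑ j ∈ Finset.range (J k), ξ (k, j) * u k j z)) -
                (∫ z in F, h z * Real.exp (f₀ z + ∑' k, ∑ j ∈ Finset.range (J k), ξ (k, j) * u k j z)) /
                  (∫ z in F, Real.exp (f₀ z + ∑' k, ∑ j ∈ Finset.range (J k), ξ (k, j) * u k j z)) *
                  ∫ z in F, ‖φ z‖ ^ 2 * Real.exp (f₀ z + ∑' k, ∑ j ∈ Finset.range (J k), ξ (k, j) * u k j z)| ≤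
                ε * ∫ z in F, ‖φ z‖ ^ 2 * Real.exp (f₀ z + ∑' k, ∑ j ∈ Finset.range (J k), ξ (k, j) * u k j z) := by
  obtain ⟨η, k₀, J, u, hη, hη8, hJ, h1, h2, h3, h4⟩ := hFNV Γ hΓ
  obtain ⟨F₀, hF₀⟩ := hDOM Γ hΓ
  obtain ⟨-, -, -, -, htr, -⟩ := hDOB Γ F₀ hΓ hF₀
  obtain ⟨-, hint⟩ := htr F hF
  refine ⟨η, k₀, J, u, hη, hJ, h1, h2, h3, ?_⟩
  intro f₀ hf0 hf hL
  refine ⟨?_, ?_⟩
  · intro ξ hξ z
    obtain ⟨h31, h32⟩ := h3 ξ hξ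
    have h5 : CkB 2 (fun z => f₀ z + ∑' k, ∑ j ∈ Finset.range (J k), ξ (k, j) * u k j z) (η + η) := by
      intro T
      have e1 := FNW_cda f₀ hf0 (fun T => hcomp f₀ T hf0) T 2
      have e2 := FNW_cda (fun z => ∑' k, ∑ j ∈ Finset.range (J k), ξ (k, j) * u k j z) h31 (fun T => hcomp _ T h31) T 2
      have e3 : iteratedFDeriv ℝ 2 (QU.onC (fun z : ℍ => f₀ (T • z)) + QU.onC (fun z : ℍ => ∑' k, ∑ j ∈ Finset.range (J k), ξ (k, j) * u k j (T • z))) (I : ℂ) = _ :=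
        iteratedFDeriv_add_apply e1 e2
      have e4 : QU.onC (fun z : ℍ => f₀ (T • z) + ∑' k, ∑ j ∈ Finset.range (J k), ξ (k, j) * u k j (T • z)) =
          QU.onC (fun z : ℍ => f₀ (T • z)) + QU.onC (fun z : ℍ => ∑' k, ∑ j ∈ Finset.range (J k), ξ (k, j) * u k j (T • z)) := rfl
      show ‖iteratedFDeriv ℝ 2 (QU.onC (fun z : ℍ => f₀ (T • z) + ∑' k, ∑ j ∈ Finset.range (J k), ξ (k, j) * u k j (T • z))) (I : ℂ)‖ ≤ η + η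
      rw [e4, e3]
      exact (norm_add_le _ _).trans (add_le_add (hL 2 (by norm_num) T) (h32 2 (by norm_num) T))
    have hcd : QU.CD ∞ (fun z => f₀ z + ∑' k, ∑ j ∈ Finset.range (J k), ξ (k, j) * u k j z) := ContDiffOn.add hf0 h31
    have h6 := hNCV _ _ hcd h5 z
    have h7 := (abs_le.1 h6).2
    linarith
  · have h5 := h4 f₀ hf0 hf hL
    unfold PN at h5
    filter_upwards [h5] with ξ hξ
    intro ε hε
    obtain ⟨r₀, hr₀, h6⟩ := hξ ε hε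
    refine ⟨r₀, hr₀, ?_⟩
    intro μ φ hμ hE h hh hl
    have hfi : ∀ (γ : Γ) (z : ℍ), (f₀ (γ • z) + ∑' k, ∑ j ∈ Finset.range (J k), ξ (k, j) * u k j (γ • z)) =
        f₀ z + ∑' k, ∑ j ∈ Finset.range (J k), ξ (k, j) * u k j z := by
      intro γ z
      rw [hf.2 γ z]
      congr 1
      refine tsum_congr fun k => Finset.sum_congr rfl fun j _ => ?_
      rw [(h1 k j).2.1.2 γ z]
    have hEq := h6 F₀ μ φ hF₀ hμ hE h hh hl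
    have i1 : ∫ z in F, h z * ‖φ z‖ ^ 2 * Real.exp (f₀ z + ∑' k, ∑ j ∈ Finset.range (J k), ξ (k, j) * u k j z) =
        ∫ z in F₀, h z * ‖φ z‖ ^ 2 * Real.exp (f₀ z + ∑' k, ∑ j ∈ Finset.range (J k), ξ (k, j) * u k j z) :=
      hint _ fun γ z => by rw [hh.2 γ z, hE.2.1 γ z, hfi γ z]
    have i2 : ∫ z in F, h z * Real.exp (f₀ z + ∑' k, ∑ j ∈ Finset.range (J k), ξ (k, j) * u k j z) =
        ∫ z in F₀, h z * Real.exp (f₀ z + ∑' k, ∑ j ∈ Finset.range (J k), ξ (k, j) * u k j z) :=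
      hint _ fun γ z => by rw [hh.2 γ z, hfi γ z]
    have i3 : ∫ z in F, Real.exp (f₀ z + ∑' k, ∑ j ∈ Finset.range (J k), ξ (k, j) * u k j z) =
        ∫ z in F₀, Real.exp (f₀ z + ∑' k, ∑ j ∈ Finset.range (J k), ξ (k, j) * u k j z) :=
      hint _ fun γ z => by rw [hfi γ z]
    have i4 : ∫ z in F, ‖φ z‖ ^ 2 * Real.exp (f₀ z + ∑' k, ∑ j ∈ Finset.range (J k), ξ (k, j) * u k j z) =
        ∫ z in F₀, ‖φ z‖ ^ 2 * Real.exp (f₀ z + ∑' k, ∑ j ∈ Finset.range (J k), ξ (k, j) * u k j z) :=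
      hint _ fun γ z => by rw [hE.2.1 γ z, hfi γ z]
    rw [i1, i2, i3, i4]
    exact hEq

end Pool.Agent.VQ
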